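import Pool.Agent.Lib.SW.LG3
import Pool.Agent.Lib.SW.SWFinal
import Mathlib.NumberTheory.Chebyshev

/-!
# PIA: the prime number theorem for the iterated prime-indexed primes

`PIA_pi`: π(X) log X / X → 1.
`PI_card_succ`: #(PI (j+1) ∩ [1,X]) = #(PI j ∩ [1, π(X)]).
`PI_asymp`: #(PI j ∩ [1,X]) (log X)^(j+1) / X → 1.
`cX_ratio`: cX X / log log log X → e^γ.
-/

open Finset Filter Topology Asymptotics

namespace Pool.Agent.Lib.SW

theorem PIA_psi : Tendsto (fun x : ℝ => Chebyshev.psi x / x) atTop (𝓝 1) := by
  obtain ⟨C, hC, h⟩ := pnt 1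
  have h0 : Tendsto (fun x : ℝ => C / Real.log x) atTop (𝓝 0) :=
    Tendsto.const_div_atTop Real.tendsto_log_atTop C
  have h1 : Tendsto (fun x : ℝ => Chebyshev.psi x / x - 1) atTop (𝓝 0) := by
    refine squeeze_zero_norm' ?_ h0
    filter_upwards [eventually_ge_atTop 2] with x hx
    have hx0 : 0 < x := by linarith
    have h2 := h x hx
    have h3 : Chebyshev.psi x = ∑ n ∈ Finset.Icc 1 ⌊x⌋₊, ArithmeticFunction.vonMangoldt n := by
      rw [Chebyshev.psi]
      rfl
    rw [← h3, pow_one] at h2
    rw [Real.norm_eq_abs]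
    have h4 : Chebyshev.psi x / x - 1 = (Chebyshev.psi x - x) / x := by
      field_simp
    rw [h4, abs_div, abs_of_pos hx0, div_le_iff₀ hx0]
    calc _ ≤ _ := h2
      _ = C / Real.log x * x := by ring
  have h5 := h1.add_const 1
  simpa using h5

theorem PIA_theta : Tendsto (fun x : ℝ => Chebyshev.theta x / x) atTop (𝓝 1) := by
  have h0 : Tendsto (fun x : ℝ => Real.log x / x ^ ((1 : ℝ) / 2)) atTop (𝓝 0) :=
    (isLittleO_log_rpow_atTop (by norm_num : (0 : ℝ) < 1 / 2)).tendsto_div_nhds_zero
  have h1 : Tendsto (fun x : ℝ => Chebyshev.psi x / x - Chebyshev.theta x / x) atTop (𝓝 0) := by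
    have h2 : Tendsto (fun x : ℝ => 2 * (Real.log x / x ^ ((1 : ℝ) / 2))) atTop (𝓝 0) := by
      have := h0.const_mul 2
      simpa using this
    refine squeeze_zero_norm' ?_ h2
    filter_upwards [eventually_ge_atTop 1] with x hx
    have hx0 : 0 < x := by linarith
    have h3 := Chebyshev.abs_psi_sub_theta_le_sqrt_mul_log hx
    rw [Real.norm_eq_abs, ← sub_div, abs_div, abs_of_pos hx0, div_le_iff₀ hx0]
    refine h3.trans (le_of_eq ?_)
    rw [← Real.sqrt_eq_rpow]
    have h4 : Real.sqrt x * Real.sqrt x = x := Real.mul_self_sqrt hx0.le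
    have h5 : Real.sqrt x ≠ 0 := (Real.sqrt_pos.2 hx0).ne'
    have h6 : 2 * (Real.log x / Real.sqrt x) * x = 2 * Real.sqrt x * Real.log x := by
      calc 2 * (Real.log x / Real.sqrt x) * x
          = 2 * (Real.log x / Real.sqrt x) * (Real.sqrt x * Real.sqrt x) := by rw [h4]
        _ = 2 * Real.sqrt x * Real.log x := by field_simp
    linarith
  have h6 := PIA_psi.sub h1
  simpa using h6

theorem PIA_pi : Tendsto (fun X : ℕ => (Nat.primeCounting X : ℝ) * Real.log X / X)
    atTop (𝓝 1) := by
  have h1 : Tendsto (fun x : ℝ => (Nat.primeCounting ⌊x⌋₊ : ℝ) * Real.log x / x) atTop (𝓝 1) := by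
    obtain ⟨C, hC⟩ := Chebyshev.primeCounting_sub_theta_div_log_isBigO.bound
    have h2 : Tendsto (fun x : ℝ => ((Nat.primeCounting ⌊x⌋₊ : ℝ) -
        Chebyshev.theta x / Real.log x) * Real.log x / x) atTop (𝓝 0) := by
      have h0 : Tendsto (fun x : ℝ => C / Real.log x) atTop (𝓝 0) :=
        Tendsto.const_div_atTop Real.tendsto_log_atTop C
      refine squeeze_zero_norm' ?_ h0
      filter_upwards [hC, eventually_gt_atTop 1] with x hx hx1
      have hx0 : 0 < x := by linarith
      have hl : 0 < Real.log x := Real.log_pos hx1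
      rw [norm_div, norm_mul, Real.norm_of_nonneg hl.le, Real.norm_of_nonneg hx0.le,
        div_le_iff₀ hx0]
      rw [Real.norm_of_nonneg (by positivity : 0 ≤ x / Real.log x ^ 2)] at hx
      calc ‖(Nat.primeCounting ⌊x⌋₊ : ℝ) - Chebyshev.theta x / Real.log x‖ * Real.log x
          ≤ C * (x / Real.log x ^ 2) * Real.log x := by gcongr
        _ = C / Real.log x * x := by
          field_simp
    have h3 := PIA_theta.add h2
    rw [add_zero] at h3
    refine h3.congr' ?_
    filter_upwards [eventually_gt_atTop 1] with x hx1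
    have hl : 0 < Real.log x := Real.log_pos hx1
    field_simp
    ring
  have h2 := h1.comp tendsto_natCast_atTop_atTop
  refine h2.congr fun X => ?_
  simp

theorem PIA_log : Tendsto (fun X : ℕ => Real.log (Nat.primeCounting X : ℝ) / Real.log X)
    atTop (𝓝 1) := by
  have h1 : Tendsto (fun X : ℕ => Real.log ((Nat.primeCounting X : ℝ) * Real.log X / X))
      atTop (𝓝 0) := by
    have := (Real.continuousAt_log (one_ne_zero)).tendsto.comp PIA_pi
    rw [Real.log_one] at this
    exact this
  have hlog : Tendsto (fun X : ℕ => Real.log (X : ℝ)) atTop atTop :=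
    Real.tendsto_log_atTop.comp tendsto_natCast_atTop_atTop
  have h2 : Tendsto (fun X : ℕ => Real.log (Real.log (X : ℝ)) / Real.log X) atTop (𝓝 0) := by
    have h3 : Tendsto (fun x : ℝ => Real.log x / x) atTop (𝓝 0) := by
      have h := Real.tendsto_pow_log_div_mul_add_atTop 1 0 1 one_ne_zero
      simpa using h
    exact h3.comp hlog
  have h3 : Tendsto (fun X : ℕ => Real.log ((Nat.primeCounting X : ℝ) * Real.log X / X) /
      Real.log X) atTop (𝓝 0) := h1.div_atTop hlog
  have h4 := (h3.sub h2).const_add 1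
  rw [sub_zero, add_zero] at h4
  refine h4.congr' ?_
  filter_upwards [hlog.eventually_gt_atTop 1, eventually_ge_atTop 2] with X hX hX2
  have hX0 : (0 : ℝ) < X := by positivity
  have hl : 0 < Real.log X := by linarith
  have hp : 0 < (Nat.primeCounting X : ℝ) := by
    have : 0 < Nat.primeCounting X := by
      rw [Nat.pos_iff_ne_zero]
      intro h0
      have := Nat.monotone_primeCounting hX2
      rw [h0] at this
      have h5 : Nat.primeCounting 2 = 1 := by decide
      omega
    exact_mod_cast this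
  rw [Real.log_div (by positivity) (by positivity), Real.log_mul (by positivity) (by positivity)]
  field_simp
  ring

theorem PI_card_zero (X : ℕ) : ((Icc 1 X).filter (PI 0)).card = Nat.primeCounting X := by
  refine le_antisymm ?_ (LG3_base X)
  rw [← Nat.primesLE_card_eq_primeCounting X]
  refine card_le_card fun p hp => ?_
  obtain ⟨h1, h2⟩ := mem_filter.1 hp
  exact Nat.mem_primesLE.mpr ⟨(mem_Icc.1 h1).2, h2⟩

theorem PI_card_succ (j X : ℕ) : ((Icc 1 X).filter (PI (j + 1))).card =
    ((Icc 1 (Nat.primeCounting X)).filter (PI j)).card := by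
  refine le_antisymm ?_ (LG3_step j X)
  refine Finset.card_le_card_of_injOn (fun p => Nat.primeCounting p) ?_ ?_
  · intro p hp
    obtain ⟨h1, h2⟩ := mem_filter.1 (Finset.mem_coe.1 hp)
    obtain ⟨h3, h4⟩ := mem_Icc.1 h1
    rw [Finset.mem_coe, mem_filter, mem_Icc]
    refine ⟨⟨?_, Nat.monotone_primeCounting h4⟩, h2.2⟩
    exact (PI_prime j _ h2.2).one_lt.le
  · intro p hp q hq hpq
    have hp' : p.Prime := (mem_filter.1 (Finset.mem_coe.1 hp)).2.1
    have hq' : q.Prime := (mem_filter.1 (Finset.mem_coe.1 hq)).2.1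
    have key : ∀ a b : ℕ, a.Prime → b.Prime → a < b →
        Nat.primeCounting a < Nat.primeCounting b := by
      intro a b ha hb hab
      have h5 : Nat.primeCounting a = Nat.count Nat.Prime (a + 1) := rfl
      have h6 : Nat.primeCounting b = Nat.count Nat.Prime (b + 1) := rfl
      rw [h5, h6, Nat.count_succ _ b, if_pos hb]
      exact Nat.lt_succ_of_le (Nat.count_monotone _ hab)
    rcases lt_trichotomy p q with h | h | h
    · have := key p q hp' hq' h
      simp only at hpq
      omega
    · exact h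
    · have := key q p hq' hp' h
      simp only at hpq
      omega

theorem PI_asymp (j : ℕ) : Tendsto (fun X : ℕ => (((Icc 1 X).filter (PI j)).card : ℝ) *
    (Real.log X) ^ (j + 1) / X) atTop (𝓝 1) := by
  induction j with
  | zero =>
    refine PIA_pi.congr fun X => ?_
    rw [PI_card_zero]
    simp
  | succ j ih =>
    have h1 := ih.comp Nat.tendsto_primeCounting
    have h2 := PIA_log.pow (j + 1)
    rw [one_pow] at h2
    have h3 := (h1.mul PIA_pi).div h2 one_ne_zero
    rw [one_mul, div_one] at h3
    refine h3.congr' ?_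
    have hlog : Tendsto (fun X : ℕ => Real.log (X : ℝ)) atTop atTop :=
      Real.tendsto_log_atTop.comp tendsto_natCast_atTop_atTop
    have hpc : Tendsto (fun X : ℕ => Real.log (Nat.primeCounting X : ℝ)) atTop atTop :=
      Real.tendsto_log_atTop.comp (tendsto_natCast_atTop_atTop.comp Nat.tendsto_primeCounting)
    filter_upwards [hlog.eventually_gt_atTop 0, hpc.eventually_gt_atTop 0,
      eventually_ge_atTop 1, Nat.tendsto_primeCounting.eventually_ge_atTop 1] with X a1 a2 a3 a4
    simp only [Function.comp_apply, Pi.div_apply]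
    rw [PI_card_succ]
    have a5 : (0 : ℝ) < X := by positivity
    have a6 : (0 : ℝ) < Nat.primeCounting X := by positivity
    rw [div_pow]
    field_simp
    ring

theorem cX_ratio : Tendsto (fun X : ℕ => cX X / Real.log (Real.log (Real.log X)))
    atTop (𝓝 (Real.exp Real.eulerMascheroniConstant)) := by
  have h1 := cX_asymp.inv₀ (Real.exp_pos _).ne'
  rw [← Real.exp_neg, neg_neg] at h1
  refine h1.congr fun X => ?_
  rw [inv_div]

end Pool.Agent.Lib.SW
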