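import Pool.Agent.Lib.SW.LG2

/-!
# SC1: the local-global principle in one single residue class modulo `W`
-/

open Finset

namespace Pool.Agent.Lib.SW

/-- Chebyshev in one residue class, all `N ≤ 2X` -/
theorem class_bad2 (K : ℕ) (η ε : ℝ) (hη : 0 < η) (hε : 0 < ε) :
    ∃ X₀ : ℕ, ∀ X : ℕ, X₀ ≤ X → ∀ S : Finset ℕ, S ⊆ Icc 1 X → ∀ a : ℕ,
      (((Icc 1 (2 * X)).filter (fun N => N ≡ a [MOD WX X] ∧
        η * cX X * max ((Sa (WX X) S a).card : ℝ) (X / (Real.log X) ^ K) <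
          |rS S N - cX X * (SN (WX X) S N).card|)).card : ℝ) ≤ ε * (X / WX X) := by
  obtain ⟨X₀, hX₀⟩ := sparse_l2 K (ε * η ^ 2 / 2) (by positivity)
  refine ⟨max X₀ 3, ?_⟩
  intro X hX S hS a
  have hX0 : X₀ ≤ X := le_trans (le_max_left _ _) hX
  have hX3 : 3 ≤ X := le_trans (le_max_right _ _) hX
  have hX3' : (3 : ℝ) ≤ X := by exact_mod_cast hX3
  have hmain := hX₀ X hX0 S hS a
  have hL0 : 0 < Real.log X := Real.log_pos (by linarith)
  obtain ⟨M, hM⟩ : ∃ M : ℝ, M = max ((Sa (WX X) S a).card : ℝ) (X / (Real.log X) ^ K) := ⟨_, rfl⟩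
  rw [← hM]
  have hM0 : 0 < M := by
    rw [hM]
    exact lt_of_lt_of_le (by positivity) (le_max_right _ _)
  have hc1 := one_le_cX X
  have hcdef : (WX X : ℝ) / ((WX X).totient : ℝ) = cX X := rfl
  rw [hcdef] at hmain
  generalize cX X = c at *
  obtain ⟨B, hB⟩ : ∃ B, B = (Icc 1 (2 * X)).filter (fun N => N ≡ a [MOD WX X] ∧
        η * c * M < |rS S N - c * (SN (WX X) S N).card|) := ⟨_, rfl⟩
  rw [← hB]
  have hsub : B ⊆ (Icc 1 (2 * X)).filter (fun N => N ≡ a [MOD WX X]) := by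
    intro N hN
    rw [hB, Finset.mem_filter] at hN
    exact Finset.mem_filter.2 ⟨hN.1, hN.2.1⟩
  have h1 : (B.card : ℝ) * (η * c * M) ^ 2 ≤
      ∑ N ∈ (Icc 1 (2 * X)).filter (fun N => N ≡ a [MOD WX X]),
        (rS S N - c * (SN (WX X) S N).card) ^ 2 := by
    calc (B.card : ℝ) * (η * c * M) ^ 2 = ∑ _N ∈ B, (η * c * M) ^ 2 := by
          rw [Finset.sum_const, nsmul_eq_mul]
      _ ≤ ∑ N ∈ B, (rS S N - c * (SN (WX X) S N).card) ^ 2 := by
          apply Finset.sum_le_sum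
          intro N hN
          rw [hB, Finset.mem_filter] at hN
          have h0 : 0 ≤ η * c * M := by positivity
          calc (η * c * M) ^ 2 ≤ |rS S N - c * (SN (WX X) S N).card| ^ 2 :=
                pow_le_pow_left₀ h0 hN.2.2.le 2
            _ = _ := sq_abs _
      _ ≤ _ := Finset.sum_le_sum_of_subset_of_nonneg hsub (fun _ _ _ => sq_nonneg _)
  have h2 : ((Sa (WX X) S a).card : ℝ) ^ 2 + (X / (Real.log X) ^ K) ^ 2 ≤ 2 * M ^ 2 := by
    have e1 : ((Sa (WX X) S a).card : ℝ) ^ 2 ≤ M ^ 2 :=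
      pow_le_pow_left₀ (by positivity) (by rw [hM]; exact le_max_left _ _) 2
    have e2 : (X / (Real.log X) ^ K : ℝ) ^ 2 ≤ M ^ 2 :=
      pow_le_pow_left₀ (by positivity) (by rw [hM]; exact le_max_right _ _) 2
    linarith
  have h3 : (B.card : ℝ) * (η * c * M) ^ 2 ≤ (ε * (X / WX X)) * (η * c * M) ^ 2 := by
    calc (B.card : ℝ) * (η * c * M) ^ 2 ≤ _ := h1
      _ ≤ _ := hmain
      _ ≤ ε * η ^ 2 / 2 * (X / WX X) * c ^ 2 * (2 * M ^ 2) := by gcongr
      _ = (ε * (X / WX X)) * (η * c * M) ^ 2 := by ring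
  have hpos : 0 < (η * c * M) ^ 2 := by positivity
  exact le_of_mul_le_mul_right h3 hpos

/-- `SN` is contained in `Sa` for `N` in the class of `a`. -/
theorem SN_sub_Sa {W N a : ℕ} (hN : N ≡ a [MOD W]) (S : Finset ℕ) : SN W S N ⊆ Sa W S a := by
  intro s hs
  unfold SN at hs
  obtain ⟨h1, h2, h3⟩ := Finset.mem_filter.1 hs
  unfold Sa
  refine Finset.mem_filter.2 ⟨h1, ?_⟩
  have hmod : (W : ℤ) ∣ (a : ℤ) - (N : ℤ) := (Nat.modEq_iff_dvd).mp hN
  have h4 : IsCoprime (((N - s : ℕ) : ℤ)) (W : ℤ) := Nat.isCoprime_iff_coprime.mpr h3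
  rw [Nat.cast_sub h2.le] at h4
  obtain ⟨k, hk⟩ := hmod
  have h5 : ((a : ℤ) - s) = ((N : ℤ) - s) + (W : ℤ) * k := by linarith
  rw [h5]
  exact (IsCoprime.add_mul_left_left_iff).mpr h4

/-- **The local-global principle in one single residue class.** -/
theorem class_global (K : ℕ) (ε : ℝ) (hε : 0 < ε) :
    ∃ X₀ : ℕ, ∀ X : ℕ, X₀ ≤ X → ∀ S : Finset ℕ, S ⊆ Icc 1 X → ∀ a : ℕ,
      (((Icc 1 (2 * X)).filter (fun N => N ≡ a [MOD WX X] ∧
        ε * cX X * max ((Sa (WX X) S a).card : ℝ) (X / (Real.log X) ^ K) / Real.log X <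
          |(reps S N : ℝ) - cX X * (SN (WX X) S N).card / Real.log X|)).card : ℝ) ≤
        ε * (X / WX X) := by
  obtain ⟨η, hη0, hη1, hηε⟩ : ∃ η : ℝ, 0 < η ∧ η ≤ 1 ∧ 4 * η ≤ ε := by
    refine ⟨min (ε / 4) 1, by positivity, min_le_right _ _, ?_⟩
    have := min_le_left (ε / 4) 1
    linarith
  obtain ⟨X₁, hX₁⟩ := class_bad2 K η ε hη0 hε
  obtain ⟨X₂, hX₂⟩ := eventually_range K η hη0
  refine ⟨max X₁ (max X₂ 1), ?_⟩
  intro X hX S hS a
  have hXa : X₁ ≤ X := le_trans (le_max_left _ _) hX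
  have hXb : X₂ ≤ X := le_trans (le_trans (le_max_left _ _) (le_max_right _ _)) hX
  have hXc : 1 ≤ X := le_trans (le_trans (le_max_right _ _) (le_max_right _ _)) hX
  have hXr : (1 : ℝ) ≤ X := by exact_mod_cast hXc
  obtain ⟨hL1, hL2, hT1, hT2⟩ := hX₂ X hXb
  have hL0 : 0 < Real.log (X : ℝ) := by linarith
  have hc1 := one_le_cX X
  refine le_trans ?_ (hX₁ X hXa S hS a)
  refine Nat.cast_le.2 (Finset.card_le_card ?_)
  intro N hN
  rw [Finset.mem_filter, Finset.mem_Icc] at hN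
  obtain ⟨⟨hN1, hN2⟩, hmod, hbad⟩ := hN
  refine Finset.mem_filter.2 ⟨Finset.mem_Icc.2 ⟨hN1, hN2⟩, hmod, ?_⟩
  by_contra hgood
  have hgood2 := le_of_not_gt hgood
  obtain ⟨M, hM⟩ : ∃ M : ℝ, M = max ((Sa (WX X) S a).card : ℝ) (X / (Real.log X) ^ K) := ⟨_, rfl⟩
  rw [← hM] at hgood2 hbad
  have hM0 : 0 < M := by
    rw [hM]
    exact lt_of_lt_of_le (by positivity) (le_max_right _ _)
  have hsM : ((SN (WX X) S N).card : ℝ) ≤ M := by
    refine le_trans (Nat.cast_le.2 (Finset.card_le_card (SN_sub_Sa hmod S))) ?_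
    rw [hM]
    exact le_max_left _ _
  have hconv := conversion (reps S N : ℝ) (rS S N) (cX X)
    ((SN (WX X) S N).card : ℝ) M (Real.log X) η
    (X / (Real.log X) ^ (K + 2)) (Real.log (X / (Real.log X) ^ (K + 2)))
    hη0 hη1 hc1 hL1 hsM hM0 hgood2 (rS_nonneg S N)
    (rS_le S X N hXc hN2) (reps_le S N _ hT1) (Real.log_pos hT1) hT2
    (by
      have e1 : (X : ℝ) / (Real.log X) ^ K ≤ M := by
        rw [hM]
        exact le_max_right _ _
      have e2 : (X : ℝ) / (Real.log X) ^ (K + 2) =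
          (X / (Real.log X) ^ K) * (1 / Real.log X) / Real.log X := by
        rw [pow_add]
        field_simp
      rw [e2]
      have e3 : 1 / Real.log X ≤ η := by
        rw [div_le_iff₀ hL0]
        exact hL2
      have e4 : (X : ℝ) / (Real.log X) ^ K * (1 / Real.log X) ≤ M * η :=
        mul_le_mul e1 e3 (by positivity) hM0.le
      calc (X : ℝ) / (Real.log X) ^ K * (1 / Real.log X) / Real.log X
          ≤ M * η / Real.log X := div_le_div_of_nonneg_right e4 hL0.le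
        _ = η * M / Real.log X := by rw [mul_comm M η])
    hL2
  have h5 : 4 * η * cX X * M / Real.log X ≤ ε * cX X * M / Real.log X := by
    gcongr
  linarith

end Pool.Agent.Lib.SW
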