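import Pool.Agent.Lib.SW.SC.PIA
import Pool.Agent.Lib.SW.SC.SC1

/-!
# SC2: almost all multiples of `W = ∏_{p ≤ log log X} p` are sums of a prime and an (iterated)
prime-indexed prime, with an asymptotic formula
-/

open Finset Filter Topology

namespace Pool.Agent.Lib.SW

theorem SC2_log : Tendsto (fun X : ℕ => Real.log (X : ℝ)) atTop atTop :=
  Real.tendsto_log_atTop.comp tendsto_natCast_atTop_atTop

/-- the counting function of `PI j` at all `N ≤ X`, with `log X` in place of `log N` -/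
theorem PI_unif (j : ℕ) (δ : ℝ) (hδ : 0 < δ) : ∃ X₀ : ℕ, ∀ X : ℕ, X₀ ≤ X → ∀ N : ℕ, N ≤ X →
    |(((Icc 1 N).filter (PI j)).card : ℝ) - N / (Real.log X) ^ (j + 1)| ≤
      δ * X / (Real.log X) ^ (j + 1) := by
  obtain ⟨η, hη0, hη1, hηδ⟩ : ∃ η : ℝ, 0 < η ∧ η ≤ 1 ∧ 8 * η ≤ δ := by
    refine ⟨min (δ / 8) 1, by positivity, min_le_right _ _, ?_⟩
    have := min_le_left (δ / 8) 1
    linarith
  have h1 : ∀ᶠ X : ℕ in atTop, |(((Icc 1 X).filter (PI j)).card : ℝ) *
      (Real.log X) ^ (j + 1) / X - 1| < η := by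
    have h := Metric.tendsto_atTop.1 (PI_asymp j) η hη0
    obtain ⟨N, hN⟩ := h
    filter_upwards [eventually_ge_atTop N] with X hX
    have := hN X hX
    rwa [Real.dist_eq] at this
  obtain ⟨N₀, hN₀⟩ := eventually_atTop.1 h1
  have h2 : Tendsto (fun X : ℕ => (Real.log X / (Real.log X + Real.log η)) ^ (j + 1)) atTop
      (𝓝 1) := by
    have h3 : Tendsto (fun y : ℝ => y / (y + Real.log η)) atTop (𝓝 1) := by
      have h4 : Tendsto (fun y : ℝ => Real.log η / (y + Real.log η)) atTop (𝓝 0) :=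
        Tendsto.const_div_atTop (tendsto_atTop_add_const_right _ _ tendsto_id) _
      have h5 := h4.const_sub 1
      rw [sub_zero] at h5
      refine h5.congr' ?_
      filter_upwards [eventually_gt_atTop (|Real.log η|)] with y hy
      have h6 : y + Real.log η ≠ 0 := by
        have := neg_abs_le (Real.log η)
        intro h7
        linarith
      field_simp
      ring
    have h5 := (h3.comp SC2_log).pow (j + 1)
    rw [one_pow] at h5
    exact h5
  have h3 : ∀ᶠ X : ℕ in atTop, (Real.log X / (Real.log X + Real.log η)) ^ (j + 1) ≤ 1 + η :=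
    (h2.eventually_lt_const (by linarith)).mono fun X hX => hX.le
  have h4 : ∀ᶠ X : ℕ in atTop, (N₀ : ℝ) + 2 ≤ η * X := by
    have h5 : Tendsto (fun X : ℕ => η * (X : ℝ)) atTop atTop :=
      tendsto_natCast_atTop_atTop.const_mul_atTop hη0
    exact h5.eventually_ge_atTop _
  obtain ⟨X₀, hX₀⟩ := eventually_atTop.1 (h3.and (h4.and ((eventually_ge_atTop 3).and
    (SC2_log.eventually_gt_atTop (1 - Real.log η)))))
  refine ⟨X₀, fun X hX N hN => ?_⟩
  obtain ⟨k1, k2, k3, k4⟩ := hX₀ X hX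
  have hXr : (3 : ℝ) ≤ X := by exact_mod_cast k3
  have hX0 : (0 : ℝ) < X := by linarith
  have hlη : Real.log η ≤ 0 := Real.log_nonpos hη0.le hη1
  have hL0 : 1 < Real.log X := by linarith
  obtain ⟨f, hf⟩ : ∃ f : ℕ → ℝ, f = fun N => (((Icc 1 N).filter (PI j)).card : ℝ) := ⟨_, rfl⟩
  have hfm : Monotone f := by
    intro a b hab
    rw [hf]
    exact Nat.cast_le.2 (card_le_card (filter_subset_filter _ (Icc_subset_Icc_right hab)))
  have hf0 : ∀ a, 0 ≤ f a := by
    intro a
    rw [hf]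
    exact Nat.cast_nonneg _
  obtain ⟨P, hP⟩ : ∃ P : ℝ, P = (Real.log X) ^ (j + 1) := ⟨_, rfl⟩
  have hP0 : 0 < P := by
    rw [hP]
    positivity
  -- the range `N ≥ η X`
  have hlarge : ∀ N : ℕ, N ≤ X → η * X ≤ N →
      (1 - η) * N / P ≤ f N ∧ f N ≤ (1 + η) * ((1 + η) * N / P) := by
    intro N hN hηN
    have hN1 : (2 : ℝ) ≤ N := by
      have : (0 : ℝ) ≤ N₀ := Nat.cast_nonneg _
      linarith
    have hN0 : (0 : ℝ) < N := by linarith
    have hNN : N₀ ≤ N := by
      have : (N₀ : ℝ) ≤ N := by linarith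
      exact_mod_cast this
    have h5 := abs_lt.1 (hN₀ N hNN)
    have hlN : 0 < Real.log N := Real.log_pos (by linarith)
    have hlNX : Real.log N ≤ Real.log X := Real.log_le_log hN0 (by exact_mod_cast hN)
    have hlN2 : Real.log X + Real.log η ≤ Real.log N := by
      rw [← Real.log_mul hX0.ne' hη0.ne', mul_comm]
      exact Real.log_le_log (by positivity) hηN
    obtain ⟨Q, hQ⟩ : ∃ Q : ℝ, Q = (Real.log N) ^ (j + 1) := ⟨_, rfl⟩
    have hQ0 : 0 < Q := by
      rw [hQ]
      positivity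
    have hQP : Q ≤ P := by
      rw [hQ, hP]
      exact pow_le_pow_left₀ hlN.le hlNX _
    have hPQ : P ≤ (1 + η) * Q := by
      have h6 : P / Q ≤ 1 + η := by
        refine le_trans ?_ k1
        rw [hP, hQ, ← div_pow]
        refine pow_le_pow_left₀ (by positivity) ?_ _
        exact div_le_div_of_nonneg_left (by linarith) (by linarith) hlN2
      rwa [div_le_iff₀ hQ0] at h6
    have e1 : f N * Q / N = (((Icc 1 N).filter (PI j)).card : ℝ) * (Real.log N) ^ (j + 1) / N := by
      rw [hf, hQ]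
    rw [← e1] at h5
    have h7 : (1 - η) * N ≤ f N * Q := by
      have h8 : 1 - η ≤ f N * Q / N := by linarith [h5.1]
      rwa [le_div_iff₀ hN0] at h8
    have h8 : f N * Q ≤ (1 + η) * N := by
      have h9 : f N * Q / N ≤ 1 + η := by linarith [h5.2]
      rwa [div_le_iff₀ hN0] at h9
    constructor
    · rw [div_le_iff₀ hP0]
      exact h7.trans (mul_le_mul_of_nonneg_left hQP (hf0 N))
    · have h9 : f N * P ≤ (1 + η) * ((1 + η) * N) := by
        calc f N * P ≤ f N * ((1 + η) * Q) := mul_le_mul_of_nonneg_left hPQ (hf0 N)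
          _ = (1 + η) * (f N * Q) := by ring
          _ ≤ (1 + η) * ((1 + η) * N) := mul_le_mul_of_nonneg_left h8 (by linarith)
      rw [← mul_div_assoc, le_div_iff₀ hP0]
      exact h9
  have e2 : (((Icc 1 N).filter (PI j)).card : ℝ) = f N := by rw [hf]
  rw [e2, ← hP]
  have hNX : (N : ℝ) ≤ X := by exact_mod_cast hN
  have hNn : (0 : ℝ) ≤ N := Nat.cast_nonneg N
  have hbig : 8 * η * X / P ≤ δ * X / P := by
    refine div_le_div_of_nonneg_right ?_ hP0.le
    exact mul_le_mul_of_nonneg_right hηδ hX0.le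
  rcases le_or_gt (η * X) (N : ℝ) with hc | hc
  · obtain ⟨a1, a2⟩ := hlarge N hN hc
    rw [abs_le]
    constructor
    · have e3 : (1 - η) * N / P = N / P - η * N / P := by ring
      have e4 : η * N / P ≤ 8 * η * X / P := by
        refine div_le_div_of_nonneg_right ?_ hP0.le
        nlinarith
      linarith
    · have e3 : (1 + η) * ((1 + η) * N / P) = N / P + (2 * η + η ^ 2) * N / P := by ring
      have e4 : (2 * η + η ^ 2) * N / P ≤ 8 * η * X / P := by
        refine div_le_div_of_nonneg_right ?_ hP0.le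
        have e5 : 2 * η + η ^ 2 ≤ 8 * η := by nlinarith
        exact mul_le_mul e5 hNX hNn (by positivity)
      linarith
  · -- small `N`
    obtain ⟨M, hM⟩ : ∃ M : ℕ, M = ⌈η * X⌉₊ := ⟨_, rfl⟩
    have hM1 : η * X ≤ M := by
      rw [hM]
      exact Nat.le_ceil _
    have hM2 : (M : ℝ) < η * X + 1 := by
      rw [hM]
      exact Nat.ceil_lt_add_one (by positivity)
    have hN₀0 : (0 : ℝ) ≤ N₀ := Nat.cast_nonneg _
    have hMX : M ≤ X := by
      rw [hM]
      refine Nat.ceil_le.2 ?_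
      nlinarith
    obtain ⟨-, a2⟩ := hlarge M hMX hM1
    have hNM : N ≤ M := by
      have : (N : ℝ) ≤ M := by linarith
      exact_mod_cast this
    have a3 := (hfm hNM).trans a2
    have hM3 : (M : ℝ) ≤ 2 * (η * X) := by linarith
    have e4 : (1 + η) * ((1 + η) * M / P) ≤ 8 * η * X / P := by
      rw [← mul_div_assoc]
      refine div_le_div_of_nonneg_right ?_ hP0.le
      have e5 : (1 + η) * (1 + η) ≤ 4 := by nlinarith
      have e6 : (0 : ℝ) ≤ M := Nat.cast_nonneg M
      calc (1 + η) * ((1 + η) * M) = ((1 + η) * (1 + η)) * M := by ring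
        _ ≤ 4 * (2 * (η * X)) := mul_le_mul e5 hM3 e6 (by norm_num)
        _ = 8 * η * X := by ring
    have e7 : 0 ≤ N / P := by positivity
    have e8 : N / P ≤ 8 * η * X / P := by
      refine div_le_div_of_nonneg_right ?_ hP0.le
      nlinarith
    have e9 := hf0 N
    rw [abs_le]
    constructor <;> linarith

/-- **Almost all multiples of `W`**: asymptotic formula for the number of representations. -/
theorem multiples (j : ℕ) (ε : ℝ) (hε : 0 < ε) : ∃ X₀ : ℕ, ∀ X : ℕ, X₀ ≤ X →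
    (((Icc 1 X).filter (fun N => WX X ∣ N ∧
      ε * Real.log (Real.log (Real.log X)) * X / (Real.log X) ^ (j + 2) <
        |(reps ((Icc 1 X).filter (PI j)) N : ℝ) -
          Real.exp Real.eulerMascheroniConstant * Real.log (Real.log (Real.log X)) * N /
            (Real.log X) ^ (j + 2)|)).card : ℝ) ≤ ε * (X / WX X) := by
  obtain ⟨G, hG⟩ : ∃ G : ℝ, G = Real.exp Real.eulerMascheroniConstant := ⟨_, rfl⟩
  have hG0 : 0 < G := by
    rw [hG]
    exact Real.exp_pos _
  obtain ⟨η, hη0, hη1, hηε⟩ : ∃ η : ℝ, 0 < η ∧ η ≤ 1 ∧ (10 * G + 20) * η ≤ ε := by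
    refine ⟨min (ε / (10 * G + 20)) 1, by positivity, min_le_right _ _, ?_⟩
    have h := min_le_left (ε / (10 * G + 20)) 1
    calc (10 * G + 20) * min (ε / (10 * G + 20)) 1 ≤ (10 * G + 20) * (ε / (10 * G + 20)) :=
          mul_le_mul_of_nonneg_left h (by positivity)
      _ = ε := by field_simp
  have hηε' : η ≤ ε := by nlinarith
  obtain ⟨X₁, hX₁⟩ := class_global (j + 2) η hη0
  obtain ⟨X₂, hX₂⟩ := PI_unif j η hη0
  -- `|cX - G T| ≤ η T`
  have hc : ∀ᶠ X : ℕ in atTop, |cX X / Real.log (Real.log (Real.log X)) - G| < η := by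
    have h := Metric.tendsto_atTop.1 cX_ratio η hη0
    obtain ⟨N, hN⟩ := h
    filter_upwards [eventually_ge_atTop N] with X hX
    have := hN X hX
    rwa [Real.dist_eq, ← hG] at this
  -- `log log X + 1 ≤ η X / L^(j+1)`
  have hw : ∀ᶠ X : ℕ in atTop, (Real.log X) ^ (j + 1) * (Real.log X + 1) ≤ η * X := by
    have h1 := eventually_log_pow (j + 2) (η / 2) (by positivity)
    filter_upwards [h1, SC2_log.eventually_ge_atTop 1] with X hX hX1
    have h2 : (Real.log X) ^ (j + 1) * (Real.log X + 1) ≤ 2 * (Real.log X) ^ (j + 2) := by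
      have h3 : (Real.log X) ^ (j + 2) = (Real.log X) ^ (j + 1) * Real.log X := pow_succ _ _
      rw [h3]
      have h4 : 0 ≤ (Real.log X) ^ (j + 1) := by positivity
      nlinarith
    linarith
  obtain ⟨X₀, hX₀⟩ := eventually_atTop.1 (hc.and (hw.and ((LG3_log3_ev 1).and
    ((LG3_loglog_ev 1).and ((SC2_log.eventually_ge_atTop 1).and
      (eventually_ge_atTop (max X₁ (max X₂ 3))))))))
  refine ⟨X₀, fun X hX => ?_⟩
  obtain ⟨k1, k2, k3, k4, k5, k6⟩ := hX₀ X hX
  have hXa : X₁ ≤ X := (le_max_left _ _).trans k6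
  have hXb : X₂ ≤ X := (le_max_left _ _).trans ((le_max_right _ _).trans k6)
  have hX3 : 3 ≤ X := (le_max_right _ _).trans ((le_max_right _ _).trans k6)
  have hXr : (3 : ℝ) ≤ X := by exact_mod_cast hX3
  have hX0 : (0 : ℝ) < X := by linarith
  obtain ⟨S, hS⟩ : ∃ S : Finset ℕ, S = (Icc 1 X).filter (PI j) := ⟨_, rfl⟩
  have hSX : S ⊆ Icc 1 X := by
    rw [hS]
    exact filter_subset _ _
  have hmain := hX₁ X hXa S hSX 0
  have hcount := hX₂ X hXb
  rw [← hS, ← hG]
  refine le_trans ?_ (hmain.trans (mul_le_mul_of_nonneg_right hηε' (by positivity)))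
  refine Nat.cast_le.2 (card_le_card ?_)
  intro N hN
  rw [mem_filter, mem_Icc] at hN
  obtain ⟨⟨hN1, hN2⟩, hWN, hbad⟩ := hN
  rw [mem_filter, mem_Icc]
  refine ⟨⟨hN1, by omega⟩, (Nat.modEq_zero_iff_dvd).2 hWN, ?_⟩
  by_contra hgood
  have hgood2 := le_of_not_gt hgood
  refine absurd hbad (not_lt.2 ?_)
  -- abbreviations
  obtain ⟨L, hL⟩ : ∃ L : ℝ, L = Real.log X := ⟨_, rfl⟩
  obtain ⟨T, hT⟩ : ∃ T : ℝ, T = Real.log (Real.log L) := ⟨_, rfl⟩
  rw [← hL] at k1 k2 k3 k4 k5 hgood2 hcount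
  rw [← hT] at k1 k3
  rw [← hL, ← hT]
  have hL0 : 0 < L := by linarith
  have hT0 : 0 < T := by linarith
  have hc1 := one_le_cX X
  obtain ⟨c, hc'⟩ : ∃ c : ℝ, c = cX X := ⟨_, rfl⟩
  rw [← hc'] at k1 hgood2 hc1
  have hc2 : |c - G * T| ≤ η * T := by
    have h1 : c - G * T = (c / T - G) * T := by
      field_simp
    rw [h1, abs_mul, abs_of_pos hT0]
    exact mul_le_mul_of_nonneg_right k1.le hT0.le
  have hc3 : c ≤ (G + 1) * T := by
    have := (abs_le.1 hc2).2
    nlinarith
  -- the sizes of the sets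
  have hSa : ((Sa (WX X) S 0).card : ℝ) ≤ 2 * X / L ^ (j + 1) := by
    have h1 : ((Sa (WX X) S 0).card : ℝ) ≤ (S.card : ℝ) := by
      unfold Sa
      exact Nat.cast_le.2 (card_filter_le _ _)
    have h2 := (abs_le.1 (hcount X le_rfl)).2
    rw [← hS] at h2
    have h3 : η * X / L ^ (j + 1) ≤ X / L ^ (j + 1) := by
      refine div_le_div_of_nonneg_right ?_ (by positivity)
      nlinarith
    have h4 : 2 * (X : ℝ) / L ^ (j + 1) = X / L ^ (j + 1) + X / L ^ (j + 1) := by ring
    linarith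
  have hmax : max ((Sa (WX X) S 0).card : ℝ) (X / L ^ (j + 2)) ≤ 2 * X / L ^ (j + 1) := by
    refine max_le hSa ?_
    rw [div_le_div_iff₀ (by positivity) (by positivity)]
    have h3 : L ^ (j + 2) = L ^ (j + 1) * L := pow_succ _ _
    rw [h3]
    have h4 : 0 ≤ X * L ^ (j + 1) := by positivity
    nlinarith
  -- the local count
  have hw' : (wX X : ℝ) + 1 ≤ η * X / L ^ (j + 1) := by
    have h1 : (wX X : ℝ) ≤ L := by
      rw [hL]
      exact wX_le X (by rw [← hL]; exact k5)
    rw [le_div_iff₀ (by positivity)]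
    refine le_trans ?_ k2
    rw [mul_comm]
    exact mul_le_mul_of_nonneg_left (by linarith) (by positivity)
  obtain ⟨f, hf⟩ : ∃ f : ℝ, f = (((Icc 1 N).filter (PI j)).card : ℝ) := ⟨_, rfl⟩
  have hSNle : ((SN (WX X) S N).card : ℝ) ≤ f := by
    rw [hf]
    refine Nat.cast_le.2 (card_le_card ?_)
    intro s hs
    unfold SN at hs
    rw [hS, mem_filter, mem_filter, mem_Icc] at hs
    exact mem_filter.2 ⟨mem_Icc.2 ⟨hs.1.1.1, hs.2.1.le⟩, hs.1.2⟩
  have hSNge : f ≤ ((SN (WX X) S N).card : ℝ) + (wX X + 1) := by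
    rw [hf]
    have h1 : (Icc 1 N).filter (PI j) ⊆ SN (WX X) S N ∪ insert N (Icc 1 (wX X)) := by
      intro s hs
      obtain ⟨hs1, hs2⟩ := mem_filter.1 hs
      obtain ⟨hs3, hs4⟩ := mem_Icc.1 hs1
      rw [mem_union, mem_insert]
      by_cases h2 : s = N
      · exact Or.inr (Or.inl h2)
      by_cases h3 : s ≤ wX X
      · exact Or.inr (Or.inr (mem_Icc.2 ⟨hs3, h3⟩))
      left
      unfold SN
      rw [hS]
      refine mem_filter.2 ⟨mem_filter.2 ⟨mem_Icc.2 ⟨hs3, hs4.trans hN2⟩, hs2⟩, by omega, ?_⟩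
      -- coprimality
      have hsp : s.Prime := PI_prime j s hs2
      have h4 : Nat.Coprime s (WX X) := by
        rw [Nat.Prime.coprime_iff_not_dvd hsp]
        unfold WX
        rw [hsp.dvd_primorial_iff]
        exact h3
      obtain ⟨m, hm⟩ := hWN
      have h5 : IsCoprime (((N - s : ℕ) : ℤ)) (WX X : ℤ) := by
        rw [Nat.cast_sub (by omega)]
        have h6 : (N : ℤ) - s = -(s : ℤ) + (WX X : ℤ) * m := by
          have : (N : ℤ) = (WX X : ℤ) * m := by exact_mod_cast hm
          rw [this]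
          ring
        rw [h6]
        refine (IsCoprime.add_mul_left_left_iff).2 ?_
        exact (Nat.isCoprime_iff_coprime.mpr h4).neg_left
      exact Nat.isCoprime_iff_coprime.mp h5
    have h2 := (card_le_card h1).trans (card_union_le _ _)
    have h3 := card_insert_le N (Icc 1 (wX X))
    rw [Nat.card_Icc, Nat.add_sub_cancel] at h3
    have h4 : ((Icc 1 N).filter (PI j)).card ≤ (SN (WX X) S N).card + (wX X + 1) := by omega
    exact_mod_cast h4
  have hfN := abs_le.1 (hcount N hN2)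
  rw [← hf] at hfN
  obtain ⟨s, hs⟩ : ∃ s : ℝ, s = ((SN (WX X) S N).card : ℝ) := ⟨_, rfl⟩
  rw [← hs] at hgood2 hSNle hSNge
  have hs1 : |s - N / L ^ (j + 1)| ≤ 2 * η * X / L ^ (j + 1) := by
    have e1 : 2 * η * X / L ^ (j + 1) = η * X / L ^ (j + 1) + η * X / L ^ (j + 1) := by ring
    rw [abs_le, e1]
    constructor
    · linarith [hfN.1]
    · have : 0 ≤ η * X / L ^ (j + 1) := by positivity
      linarith [hfN.2]
  -- the error terms
  have hNX : (N : ℝ) ≤ X := by exact_mod_cast hN2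
  have hNn : (0 : ℝ) ≤ N := Nat.cast_nonneg N
  obtain ⟨Q, hQ⟩ : ∃ Q : ℝ, Q = L ^ (j + 1) := ⟨_, rfl⟩
  have hQ0 : 0 < Q := by
    rw [hQ]
    positivity
  have hQL : L ^ (j + 2) = Q * L := by
    rw [hQ]
    exact pow_succ _ _
  rw [hQL]
  rw [← hQ] at hs1 hmax hSa
  have t1 : |(reps S N : ℝ) - c * s / L| ≤ 2 * η * (G + 1) * T * X / (Q * L) := by
    refine hgood2.trans ?_
    rw [hQL]
    rw [hQL] at hmax
    calc η * c * max ((Sa (WX X) S 0).card : ℝ) (X / (Q * L)) / L
        ≤ η * ((G + 1) * T) * (2 * X / Q) / L := by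
          refine div_le_div_of_nonneg_right ?_ hL0.le
          refine mul_le_mul ?_ hmax (le_max_of_le_left (Nat.cast_nonneg _)) (by positivity)
          exact mul_le_mul_of_nonneg_left hc3 hη0.le
      _ = 2 * η * (G + 1) * T * X / (Q * L) := by
          field_simp
  have t2 : |c * s / L - c * (N / Q) / L| ≤ 2 * η * (G + 1) * T * X / (Q * L) := by
    have e1 : c * s / L - c * (N / Q) / L = c * (s - N / Q) / L := by ring
    rw [e1, abs_div, abs_mul, abs_of_pos hL0, abs_of_pos (by linarith : 0 < c)]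
    calc c * |s - N / Q| / L ≤ ((G + 1) * T) * (2 * η * X / Q) / L := by
          refine div_le_div_of_nonneg_right ?_ hL0.le
          exact mul_le_mul hc3 hs1 (abs_nonneg _) (by positivity)
      _ = 2 * η * (G + 1) * T * X / (Q * L) := by
          field_simp
  have t3 : |c * (N / Q) / L - G * T * N / (Q * L)| ≤ η * T * X / (Q * L) := by
    have e1 : c * (N / Q) / L - G * T * N / (Q * L) = (c - G * T) * N / (Q * L) := by
      field_simp
    rw [e1, abs_div, abs_mul, abs_of_pos (by positivity : 0 < Q * L), abs_of_nonneg hNn]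
    refine div_le_div_of_nonneg_right ?_ (by positivity)
    exact mul_le_mul hc2 hNX hNn (by positivity)
  have t4 : |(reps S N : ℝ) - G * T * N / (Q * L)| ≤
      2 * η * (G + 1) * T * X / (Q * L) + 2 * η * (G + 1) * T * X / (Q * L) +
        η * T * X / (Q * L) := by
    have e1 : (reps S N : ℝ) - G * T * N / (Q * L) = ((reps S N : ℝ) - c * s / L) +
      (c * s / L - c * (N / Q) / L) + (c * (N / Q) / L - G * T * N / (Q * L)) := by ring
    rw [e1]
    refine (abs_add_le _ _).trans (add_le_add ((abs_add_le _ _).trans (add_le_add t1 t2)) t3)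
  refine t4.trans ?_
  have e5 : 2 * η * (G + 1) * T * X / (Q * L) + 2 * η * (G + 1) * T * X / (Q * L) +
        η * T * X / (Q * L) = ((4 * G + 5) * η) * (T * X / (Q * L)) := by ring
  have e6 : ε * T * X / (Q * L) = ε * (T * X / (Q * L)) := by ring
  rw [e5, e6]
  refine mul_le_mul_of_nonneg_right ?_ (by positivity)
  nlinarith

end Pool.Agent.Lib.SW
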