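import Pool.Agent.Lib.SW.SC.SC2

/-!
# SC3: the multiples of `m`, for all divisors `m` of `W = ∏_{p ≤ log log X} p`: lower bound

If `S` is any set of primes which is not too thin, then at least `(1 - ε) (X/m) ∏_{p | W/m} (1 - 1/p)` of the
multiples `N ≤ X` of `m` are sums of a prime and an element of `S`.
-/

open Finset Filter Topology

namespace Pool.Agent.Lib.SW

theorem SC3_class_ge (A X W a : ℕ) (hW : 0 < W) :
    ((X : ℝ) - A) / W - 1 ≤ (((Ioc A X).filter (fun N => N ≡ a [MOD W])).card : ℝ) := by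
  have h1 := Nat.Ioc_filter_modEq_card A X hW a
  have h2 : (((Ioc A X).filter (fun N => N ≡ a [MOD W])).card : ℚ) ≥ ((X : ℚ) - A) / W - 1 := by
    have h3 : ((((Ioc A X).filter (fun N => N ≡ a [MOD W])).card : ℤ) : ℚ) =
        ((max (⌊((X : ℚ) - a) / (W : ℚ)⌋ - ⌊((A : ℚ) - a) / (W : ℚ)⌋) 0 : ℤ) : ℚ) := by
      rw [h1]
    have h4 : ((X : ℚ) - A) / W - 1 ≤
        ((max (⌊((X : ℚ) - a) / (W : ℚ)⌋ - ⌊((A : ℚ) - a) / (W : ℚ)⌋) 0 : ℤ) : ℚ) := by
      have h5 := Int.sub_one_lt_floor (((X : ℚ) - a) / (W : ℚ))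
      have h6 := Int.floor_le (((A : ℚ) - a) / (W : ℚ))
      have h7 : (((⌊((X : ℚ) - a) / (W : ℚ)⌋ - ⌊((A : ℚ) - a) / (W : ℚ)⌋ : ℤ)) : ℚ) ≤
          ((max (⌊((X : ℚ) - a) / (W : ℚ)⌋ - ⌊((A : ℚ) - a) / (W : ℚ)⌋) 0 : ℤ) : ℚ) := by
        exact_mod_cast le_max_left _ _
      refine le_trans ?_ h7
      push_cast at h5 ⊢
      have h8 : ((X : ℚ) - a) / W - ((A : ℚ) - a) / W = ((X : ℚ) - A) / W := by ring
      linarith
    rw [← h3] at h4
    exact_mod_cast h4
  have h9 : (((((X : ℚ) - A) / W - 1 : ℚ)) : ℝ) ≤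
      ((((((Ioc A X).filter (fun N => N ≡ a [MOD W])).card : ℕ) : ℚ)) : ℝ) := by
    exact_mod_cast h2
  push_cast at h9
  exact h9

/-- classes divisible by `m` and congruent to `b` modulo no prime factor of `W` -/
theorem SC3_classes (W m b : ℕ) (hW : Squarefree W) (hm : m ∣ W) (hb : Nat.Coprime b W) :
    (W / m).totient ≤ ((range W).filter (fun a => m ∣ a ∧
      IsCoprime ((a : ℤ) - b) (W : ℤ))).card := by
  obtain ⟨k, hk⟩ := hm
  have hW0 : 0 < W := Nat.pos_of_ne_zero hW.ne_zero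
  have hm0 : 0 < m := Nat.pos_of_ne_zero (by rintro rfl; simp at hk; omega)
  have hk0 : 0 < k := Nat.pos_of_ne_zero (by rintro rfl; simp at hk; omega)
  have hkW : W / m = k := by
    rw [hk]
    exact Nat.mul_div_cancel_left k hm0
  have hco : Nat.Coprime m k := by
    rw [hk] at hW
    exact Nat.coprime_of_squarefree_mul hW
  rw [hkW, Nat.totient]
  refine Finset.card_le_card_of_injOn
    (fun u => (Nat.chineseRemainder hco 0 (u + b) : ℕ)) ?_ ?_
  · intro u hu
    obtain ⟨hu1, hu2⟩ := mem_filter.1 (Finset.mem_coe.1 hu)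
    rw [mem_range] at hu1
    have hr := (Nat.chineseRemainder hco 0 (u + b)).prop
    have hlt := Nat.chineseRemainder_lt_mul hco 0 (u + b) hm0.ne' hk0.ne'
    obtain ⟨a, ha⟩ : ∃ a : ℕ, a = (Nat.chineseRemainder hco 0 (u + b) : ℕ) := ⟨_, rfl⟩
    rw [← ha] at hr hlt
    simp only [← ha]
    rw [Finset.mem_coe, mem_filter, mem_range]
    have h1 : m ∣ a := (Nat.modEq_zero_iff_dvd).1 hr.1
    refine ⟨by rw [hk]; exact hlt, h1, ?_⟩
    have h2 : (W : ℤ) = (m : ℤ) * k := by exact_mod_cast hk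
    rw [h2]
    refine IsCoprime.mul_right ?_ ?_
    · obtain ⟨t, ht⟩ := h1
      have h3 : (a : ℤ) - b = -(b : ℤ) + (m : ℤ) * t := by
        rw [ht]
        push_cast
        ring
      rw [h3]
      refine (IsCoprime.add_mul_left_left_iff).2 ?_
      refine IsCoprime.neg_left ?_
      refine Nat.isCoprime_iff_coprime.2 ?_
      exact Nat.Coprime.coprime_dvd_right ⟨k, hk⟩ hb
    · have h3 : (k : ℤ) ∣ ((u + b : ℕ) : ℤ) - (a : ℤ) := (Nat.modEq_iff_dvd).1 hr.2
      obtain ⟨t, ht⟩ := h3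
      have h4 : (a : ℤ) - b = (u : ℤ) + (k : ℤ) * (-t) := by
        push_cast at ht
        linarith
      rw [h4]
      refine (IsCoprime.add_mul_left_left_iff).2 ?_
      exact Nat.isCoprime_iff_coprime.2 hu2.symm
  · intro u hu v hv huv
    obtain ⟨hu1, -⟩ := mem_filter.1 (Finset.mem_coe.1 hu)
    obtain ⟨hv1, -⟩ := mem_filter.1 (Finset.mem_coe.1 hv)
    rw [mem_range] at hu1 hv1
    have hr := (Nat.chineseRemainder hco 0 (u + b)).prop.2
    have hs := (Nat.chineseRemainder hco 0 (v + b)).prop.2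
    simp only at huv
    rw [← huv] at hs
    have h1 : u + b ≡ v + b [MOD k] := hr.symm.trans hs
    have h2 : u ≡ v [MOD k] := Nat.ModEq.add_right_cancel' b h1
    exact Nat.ModEq.eq_of_lt_of_lt h2 hu1 hv1

/-- a popular residue class -/
theorem SC3_popular (W : ℕ) (hW : 0 < W) (S : Finset ℕ) (hS : ∀ s ∈ S, Nat.Coprime s W) :
    ∃ b : ℕ, (Nat.Coprime b W ∨ S = ∅) ∧
      S.card ≤ W.totient * (S.filter (fun s => s % W = b)).card := by
  by_cases hS0 : S = ∅
  · exact ⟨0, Or.inr hS0, by simp [hS0]⟩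
  have h1 : S.card = ∑ b ∈ (range W).filter (fun b => W.Coprime b),
      (S.filter (fun s => s % W = b)).card := by
    refine Finset.card_eq_sum_card_fiberwise ?_
    intro s hs
    have hs' := hS s hs
    rw [Finset.mem_coe, mem_filter, mem_range]
    refine ⟨Nat.mod_lt _ hW, ?_⟩
    rw [Nat.coprime_comm, Nat.Coprime, ← Nat.gcd_rec, Nat.gcd_comm]
    exact hs'
  by_contra hcon
  push Not at hcon
  have h2 : ∀ b ∈ (range W).filter (fun b => W.Coprime b),
      W.totient * (S.filter (fun s => s % W = b)).card ≤ S.card - 1 := by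
    intro b hb
    obtain ⟨-, hb2⟩ := mem_filter.1 hb
    have := hcon b (Or.inl hb2.symm)
    omega
  have h3 : W.totient * S.card ≤ ∑ b ∈ (range W).filter (fun b => W.Coprime b), (S.card - 1) := by
    calc W.totient * S.card = ∑ b ∈ (range W).filter (fun b => W.Coprime b),
          W.totient * (S.filter (fun s => s % W = b)).card := by rw [← mul_sum, ← h1]
      _ ≤ _ := sum_le_sum h2
  have h4 : ((range W).filter (fun b => W.Coprime b)).card = W.totient := rfl
  rw [sum_const, smul_eq_mul, h4] at h3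
  have h5 : 0 < W.totient := Nat.totient_pos.2 hW
  have h6 : 0 < S.card := card_pos.2 (nonempty_iff_ne_empty.2 hS0)
  have h7 := Nat.le_of_mul_le_mul_left h3 h5
  omega

/-- lower bound for the number of multiples of `m` which are sums -/
theorem theta_lower (K : ℕ) (ε : ℝ) (hε : 0 < ε) : ∃ X₀ : ℕ, ∀ X : ℕ, X₀ ≤ X →
    ∀ S : Finset ℕ, (∀ s ∈ S, s.Prime) →
      (∀ Y : ℕ, Real.sqrt X ≤ Y → Y ≤ X →
        Y / (Real.log Y) ^ K ≤ ((S.filter (fun s => s ≤ Y)).card : ℝ)) →
      ∀ m : ℕ, m ∣ WX X →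
        (1 - ε) * X * ((WX X / m).totient : ℝ) / WX X ≤
          (((Icc 1 X).filter (fun N => m ∣ N ∧
            X / (Real.log X) ^ (K + 6) ≤ (reps S N : ℝ))).card : ℝ) := by
  obtain ⟨δ, hδ, hδ1, hδε⟩ : ∃ δ : ℝ, 0 < δ ∧ δ ≤ 1 / 2 ∧ δ ≤ ε / 4 :=
    ⟨min (1 / 2) (ε / 4), lt_min (by norm_num) (by linarith), min_le_left _ _, min_le_right _ _⟩
  obtain ⟨X₁, hX₁⟩ := class_global (K + 4) δ hδ
  obtain ⟨X₂, hX₂⟩ := cX_le_log
  have hcast : Tendsto (fun X : ℕ => (X : ℝ)) atTop atTop := tendsto_natCast_atTop_atTop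
  obtain ⟨X₃, hX₃⟩ := eventually_atTop.1
    ((eventually_log_ge (4 + 4 / δ)).and ((eventually_log_pow (K + 4) (1 / 2) (by norm_num)).and
      ((eventually_log_pow 2 (δ / 2) (by positivity)).and
        ((hcast.eventually_ge_atTop (16 / δ ^ 2 + 4 / δ)).and
          (eventually_ge_atTop (max X₁ (max X₂ 3)))))))
  refine ⟨X₃, fun X hX S hSp hS m hm => ?_⟩
  obtain ⟨k1, k2, k3, k4, k5⟩ := hX₃ X hX
  have hXa : X₁ ≤ X := (le_max_left _ _).trans k5
  have hXb : X₂ ≤ X := (le_max_left _ _).trans ((le_max_right _ _).trans k5)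
  have hX3 : 3 ≤ X := (le_max_right _ _).trans ((le_max_right _ _).trans k5)
  have hXr3 : (3 : ℝ) ≤ X := by exact_mod_cast hX3
  have hX0 : (0 : ℝ) < X := by linarith
  obtain ⟨hcL, hWL⟩ := hX₂ X hXb
  obtain ⟨L, hL⟩ : ∃ L : ℝ, L = Real.log X := ⟨_, rfl⟩
  rw [← hL] at k1 k2 k3 hcL hWL
  have hδi : 0 < 4 / δ := by positivity
  have hL4 : 4 ≤ L := by linarith
  have hL0 : 0 < L := by linarith
  have hWpos := WX_pos X
  have hc1 := one_le_cX X
  have hwL : (wX X : ℝ) ≤ L := by
    rw [hL]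
    exact wX_le X (by rw [← hL]; linarith)
  -- density of the small elements of `S`
  obtain ⟨Y, hY⟩ : ∃ Y : ℕ, Y = ⌊δ * X⌋₊ := ⟨_, rfl⟩
  have hYle : (Y : ℝ) ≤ δ * X := by
    rw [hY]
    exact Nat.floor_le (by positivity)
  have hX4 : 4 ≤ δ * X := by
    have h1 : 4 / δ ≤ X := by
      have : 0 ≤ 16 / δ ^ 2 := by positivity
      linarith
    rwa [div_le_iff₀ hδ, mul_comm] at h1
  have hYge : δ / 2 * X ≤ (Y : ℝ) := by
    have h1 := Nat.lt_floor_add_one (δ * X)
    rw [← hY] at h1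
    nlinarith
  have hY2 : (2 : ℝ) ≤ Y := by linarith
  have hYX : (Y : ℝ) ≤ X := by nlinarith
  have hYX' : Y ≤ X := by exact_mod_cast hYX
  have hdens : X / L ^ (K + 1) ≤ ((S.filter (fun s => s ≤ Y)).card : ℝ) := by
    have hsq : Real.sqrt X ≤ Y := by
      refine le_trans ?_ hYge
      rw [Real.sqrt_le_left (by positivity)]
      have h1 : 16 / δ ^ 2 ≤ X := by linarith
      rw [div_le_iff₀ (by positivity)] at h1
      nlinarith
    refine le_trans ?_ (hS Y hsq hYX')
    have h3 : 0 < Real.log Y := Real.log_pos (by linarith)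
    have h4 : Real.log Y ≤ L := by
      rw [hL]
      exact Real.log_le_log (by linarith) hYX
    calc (X : ℝ) / L ^ (K + 1) ≤ (δ / 2 * X) / L ^ K := by
          have h6 : L ^ (K + 1) = L ^ K * L := pow_succ _ _
          rw [div_le_div_iff₀ (by positivity) (by positivity), h6]
          have h7 : 4 / δ ≤ L := by linarith
          rw [div_le_iff₀ hδ] at h7
          have h5 : 0 ≤ X * L ^ K := by positivity
          nlinarith
      _ ≤ Y / L ^ K := div_le_div_of_nonneg_right hYge (by positivity)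
      _ ≤ Y / (Real.log Y) ^ K :=
          div_le_div_of_nonneg_left (by linarith) (by positivity) (pow_le_pow_left₀ h3.le h4 _)
  -- remove the primes `≤ w`
  obtain ⟨S', hS'⟩ : ∃ S' : Finset ℕ, S' = S.filter (fun s => s ≤ Y ∧ wX X < s) := ⟨_, rfl⟩
  have hS'c : X / L ^ (K + 2) ≤ (S'.card : ℝ) := by
    have h1 : S.filter (fun s => s ≤ Y) ⊆ S' ∪ Icc 1 (wX X) := by
      intro s hs
      obtain ⟨hs1, hs2⟩ := mem_filter.1 hs
      rw [mem_union, hS']
      by_cases h : wX X < s
      · exact Or.inl (mem_filter.2 ⟨hs1, hs2, h⟩)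
      · exact Or.inr (mem_Icc.2 ⟨(hSp s hs1).one_lt.le, not_lt.1 h⟩)
    have h2 := (card_le_card h1).trans (card_union_le _ _)
    rw [Nat.card_Icc, Nat.add_sub_cancel] at h2
    have h3 : ((S.filter (fun s => s ≤ Y)).card : ℝ) ≤ S'.card + wX X := by exact_mod_cast h2
    have h4 : X / L ^ (K + 2) + L ≤ X / L ^ (K + 1) := by
      have e1 : L ^ (K + 2) = L ^ (K + 1) * L := pow_succ _ _
      have e2 : X / L ^ (K + 2) = X / L ^ (K + 1) / L := by rw [e1, div_div]
      have e3 : X / L ^ (K + 1) / L ≤ X / L ^ (K + 1) / 4 :=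
        div_le_div_of_nonneg_left (by positivity) (by norm_num) hL4
      have e4 : L ≤ X / L ^ (K + 1) / 2 := by
        rw [le_div_iff₀ (by norm_num), le_div_iff₀ (by positivity)]
        have e5 : L ^ (K + 4) = L * L ^ (K + 1) * (L * L) := by ring
        have e6 : L * 2 * L ^ (K + 1) ≤ L * L ^ (K + 1) * (L * L) := by
          have e7 : 2 ≤ L * L := by nlinarith
          have e8 : 0 ≤ L * L ^ (K + 1) := by positivity
          nlinarith
        rw [← e5] at e6
        linarith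
      have e9 : 0 ≤ X / L ^ (K + 1) := by positivity
      rw [e2]
      linarith
    linarith
  have hS'cop : ∀ s ∈ S', Nat.Coprime s (WX X) := by
    intro s hs
    rw [hS'] at hs
    obtain ⟨hs1, hs2, hs3⟩ := mem_filter.1 hs
    rw [Nat.Prime.coprime_iff_not_dvd (hSp s hs1)]
    unfold WX
    rw [(hSp s hs1).dvd_primorial_iff]
    exact not_le.2 hs3
  obtain ⟨b, hb1, hb2⟩ := SC3_popular (WX X) hWpos S' hS'cop
  have hb : Nat.Coprime b (WX X) := by
    rcases hb1 with h | h
    · exact h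
    · rw [h, card_empty, Nat.cast_zero] at hS'c
      have : 0 < X / L ^ (K + 2) := by positivity
      linarith
  obtain ⟨T, hT⟩ : ∃ T : Finset ℕ, T = S'.filter (fun s => s % WX X = b) := ⟨_, rfl⟩
  rw [← hT] at hb2
  have hφW : ((WX X).totient : ℝ) ≤ L ^ 2 :=
    le_trans (by exact_mod_cast Nat.totient_le _) hWL
  have hTc : X / L ^ (K + 4) ≤ (T.card : ℝ) := by
    have h1 : (S'.card : ℝ) ≤ (WX X).totient * T.card := by exact_mod_cast hb2
    have h2 : X / L ^ (K + 2) ≤ L ^ 2 * T.card :=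
      hS'c.trans (h1.trans (mul_le_mul_of_nonneg_right hφW (Nat.cast_nonneg _)))
    have h3 : X / L ^ (K + 4) = X / L ^ (K + 2) / L ^ 2 := by
      rw [div_div, ← pow_add]
    rw [h3, div_le_iff₀ (by positivity)]
    linarith
  have hTX : T ⊆ Icc 1 X := by
    intro s hs
    rw [hT, mem_filter, hS', mem_filter] at hs
    exact mem_Icc.2 ⟨(hSp s hs.1.1).one_lt.le, hs.1.2.1.trans hYX'⟩
  have hTS : T ⊆ S := by
    intro s hs
    rw [hT, mem_filter, hS', mem_filter] at hs
    exact hs.1.1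
  have hTb : ∀ s ∈ T, s % WX X = b := by
    intro s hs
    rw [hT] at hs
    exact (mem_filter.1 hs).2
  have hTY : ∀ s ∈ T, s ≤ Y := by
    intro s hs
    rw [hT, mem_filter, hS', mem_filter] at hs
    exact hs.1.2.1
  -- the good classes
  obtain ⟨U, hU⟩ : ∃ U : Finset ℕ, U = (range (WX X)).filter (fun a => m ∣ a ∧
      IsCoprime ((a : ℤ) - b) (WX X : ℤ)) := ⟨_, rfl⟩
  have hUc : (WX X / m).totient ≤ U.card := by
    rw [hU]
    refine SC3_classes (WX X) m b ?_ hm hb
    exact WX_squarefree _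
  obtain ⟨G, hG⟩ : ∃ G : Finset ℕ, G = (Icc 1 X).filter (fun N => m ∣ N ∧
            X / L ^ (K + 6) ≤ (reps S N : ℝ)) := ⟨_, rfl⟩
  rw [← hL, ← hG]
  have hWr : (0 : ℝ) < WX X := by exact_mod_cast hWpos
  have hclass : ∀ a ∈ U, (1 - ε) * (X / WX X) ≤ ((G.filter (fun N => N % WX X = a)).card : ℝ) := by
    intro a ha
    rw [hU, mem_filter, mem_range] at ha
    obtain ⟨ha1, ha2, ha3⟩ := ha
    have haW : a % WX X = a := Nat.mod_eq_of_lt ha1
    have hSaT : Sa (WX X) T a = T := by
      unfold Sa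
      refine filter_true_of_mem fun s hs => ?_
      have h1 : b ≡ s [MOD WX X] := by
        rw [← hTb s hs]
        exact Nat.mod_modEq _ _
      obtain ⟨t, ht⟩ := (Nat.modEq_iff_dvd).1 h1
      have h2 : (a : ℤ) - s = ((a : ℤ) - b) + (WX X : ℤ) * (-t) := by linarith
      rw [h2]
      exact (IsCoprime.add_mul_left_left_iff).2 ha3
    have hbad := hX₁ X hXa T hTX a
    rw [hSaT, ← hL, max_eq_left hTc] at hbad
    obtain ⟨B, hB⟩ : ∃ B : Finset ℕ, B = (Icc 1 (2 * X)).filter (fun N => N ≡ a [MOD WX X] ∧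
        δ * cX X * (T.card : ℝ) / L <
          |(reps T N : ℝ) - cX X * (SN (WX X) T N).card / L|) := ⟨_, rfl⟩
    rw [← hB] at hbad
    have hcl := SC3_class_ge Y X (WX X) a hWpos
    have hsub : (Ioc Y X).filter (fun N => N ≡ a [MOD WX X]) ⊆
        B ∪ G.filter (fun N => N % WX X = a) := by
      intro N hN
      obtain ⟨hN1, hN2⟩ := mem_filter.1 hN
      obtain ⟨hN3, hN4⟩ := mem_Ioc.1 hN1
      rw [mem_union]
      by_cases hbN : δ * cX X * (T.card : ℝ) / L <
          |(reps T N : ℝ) - cX X * (SN (WX X) T N).card / L|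
      · left
        rw [hB]
        exact mem_filter.2 ⟨mem_Icc.2 ⟨by omega, by omega⟩, hN2, hbN⟩
      · right
        have hSNT : SN (WX X) T N = T := by
          unfold SN
          refine filter_true_of_mem fun s hs => ?_
          have hsN : s < N := lt_of_le_of_lt (hTY s hs) hN3
          refine ⟨hsN, ?_⟩
          refine Nat.isCoprime_iff_coprime.1 ?_
          rw [Nat.cast_sub hsN.le]
          have h1 : b ≡ s [MOD WX X] := by
            rw [← hTb s hs]
            exact Nat.mod_modEq _ _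
          obtain ⟨t, ht⟩ := (Nat.modEq_iff_dvd).1 h1
          obtain ⟨r, hr⟩ := (Nat.modEq_iff_dvd).1 hN2
          have h2 : (N : ℤ) - s = ((a : ℤ) - b) + (WX X : ℤ) * (-t - r) := by
            have e1 : (WX X : ℤ) * (-t - r) = -((WX X : ℤ) * t) - (WX X : ℤ) * r := by ring
            rw [e1, ← ht, ← hr]
            ring
          rw [h2]
          exact (IsCoprime.add_mul_left_left_iff).2 ha3
        rw [hSNT] at hbN
        have h1 := (abs_le.1 (not_lt.1 hbN)).1
        have h2 : (1 / 2) * (T.card / L) ≤ (reps T N : ℝ) := by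
          have e1 : cX X * (T.card : ℝ) / L - δ * cX X * (T.card : ℝ) / L =
              (1 - δ) * cX X * (T.card / L) := by ring
          have e2 : (1 / 2) * ((T.card : ℝ) / L) ≤ (1 - δ) * cX X * (T.card / L) := by
            refine mul_le_mul_of_nonneg_right ?_ (by positivity)
            nlinarith
          linarith
        have h3 : X / L ^ (K + 6) ≤ (reps S N : ℝ) := by
          have e0 : (reps T N : ℝ) ≤ reps S N := by exact_mod_cast reps_mono hTS N
          refine le_trans ?_ (h2.trans e0)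
          have e1 : X / L ^ (K + 6) = X / L ^ (K + 4) / L ^ 2 := by
            rw [div_div, ← pow_add]
          rw [e1, div_le_iff₀ (by positivity)]
          have e2 : 1 / 2 * ((T.card : ℝ) / L) * L ^ 2 = (L / 2) * T.card := by
            field_simp
          rw [e2]
          have e3 : (1 : ℝ) * T.card ≤ (L / 2) * T.card :=
            mul_le_mul_of_nonneg_right (by linarith) (Nat.cast_nonneg _)
          linarith
        have h8 : N % WX X = a := by
          have : N % WX X = a % WX X := hN2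
          rw [this, haW]
        refine mem_filter.2 ⟨?_, h8⟩
        rw [hG]
        refine mem_filter.2 ⟨mem_Icc.2 ⟨by omega, hN4⟩, ?_, h3⟩
        -- `m ∣ N`
        have h9 : N ≡ a [MOD m] := Nat.ModEq.of_dvd hm hN2
        exact (Nat.modEq_zero_iff_dvd).1 (h9.trans ((Nat.modEq_zero_iff_dvd).2 ha2))
    have hle : (((Ioc Y X).filter (fun N => N ≡ a [MOD WX X])).card : ℝ) ≤
        (B.card : ℝ) + ((G.filter (fun N => N % WX X = a)).card : ℝ) := by
      exact_mod_cast le_trans (card_le_card hsub) (card_union_le _ _)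
    have hone : 1 ≤ δ * (X / WX X) := by
      have e1 : (WX X : ℝ) ≤ δ * X := by
        have : 0 ≤ δ * X := by positivity
        linarith
      have e2 : δ * ((X : ℝ) / WX X) = (δ * X) / WX X := by ring
      rw [e2, one_le_div hWr]
      exact e1
    have e3 : ((X : ℝ) - Y) / WX X ≥ (1 - δ) * (X / WX X) := by
      have e4 : (1 - δ) * ((X : ℝ) / WX X) = (X - δ * X) / WX X := by ring
      rw [e4]
      exact div_le_div_of_nonneg_right (by linarith) hWr.le
    have e5 : 0 ≤ (X : ℝ) / WX X := by positivity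
    have e6 : (1 - ε) * ((X : ℝ) / WX X) ≤ (1 - 3 * δ) * (X / WX X) :=
      mul_le_mul_of_nonneg_right (by linarith) e5
    have e7 : (1 - 3 * δ) * ((X : ℝ) / WX X) = (1 - δ) * (X / WX X) - δ * (X / WX X) -
      δ * (X / WX X) := by ring
    linarith
  have hsum : ∑ a ∈ U, ((G.filter (fun N => N % WX X = a)).card : ℝ) ≤ (G.card : ℝ) := by
    have h1 : ∑ a ∈ U, (G.filter (fun N => N % WX X = a)).card =
        (U.biUnion (fun a => G.filter (fun N => N % WX X = a))).card := by
      rw [Finset.card_biUnion]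
      intro a _ b _ hab
      rw [Function.onFun, Finset.disjoint_left]
      intro N hN hN2
      rw [Finset.mem_filter] at hN hN2
      exact hab (hN.2.symm.trans hN2.2)
    have h2 : (U.biUnion (fun a => G.filter (fun N => N % WX X = a))).card ≤ G.card := by
      apply Finset.card_le_card
      intro N hN
      rw [Finset.mem_biUnion] at hN
      obtain ⟨a, _, ha⟩ := hN
      exact (Finset.mem_filter.mp ha).1
    rw [← h1] at h2
    exact_mod_cast h2
  by_cases hε1 : 1 ≤ ε
  · have h1 : (1 - ε) * X * ((WX X / m).totient : ℝ) / WX X ≤ 0 := by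
      refine div_nonpos_of_nonpos_of_nonneg ?_ hWr.le
      exact mul_nonpos_of_nonpos_of_nonneg
        (mul_nonpos_of_nonpos_of_nonneg (by linarith) hX0.le) (Nat.cast_nonneg _)
    exact h1.trans (Nat.cast_nonneg _)
  · have hε2 : 0 ≤ 1 - ε := by
      have := lt_of_not_ge hε1
      linarith
    calc (1 - ε) * X * ((WX X / m).totient : ℝ) / WX X
        = ((WX X / m).totient : ℝ) * ((1 - ε) * (X / WX X)) := by ring
      _ ≤ (U.card : ℝ) * ((1 - ε) * (X / WX X)) := by
          refine mul_le_mul_of_nonneg_right (by exact_mod_cast hUc) ?_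
          positivity
      _ = ∑ _a ∈ U, (1 - ε) * ((X : ℝ) / WX X) := by rw [sum_const, nsmul_eq_mul]
      _ ≤ ∑ a ∈ U, ((G.filter (fun N => N % WX X = a)).card : ℝ) := sum_le_sum hclass
      _ ≤ (G.card : ℝ) := hsum

end Pool.Agent.Lib.SW
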