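import Pool.Agent.Lib.SW.SC.SC3

/-!
# SC4: sharpness of `theta_lower`

One set `S` of primes (the primes `≡ 1` modulo `W₀ = ∏_{p ≤ z} p`, `z = ⌊(log log X)/4⌋`) for which at most
`(1 + ε) (X/m) ∏_{p | W/m} (1 - 1/p)` of the multiples `N ≤ X` of `m` are sums, for all `m ∣ W` at once.
-/

open Finset Filter Topology

namespace Pool.Agent.Lib.SW

/-- `φ(n)/n` -/
noncomputable def hh (n : ℕ) : ℝ := (n.totient : ℝ) / n

theorem hh_pos {n : ℕ} (hn : 0 < n) : 0 < hh n := by
  unfold hh
  have := Nat.totient_pos.2 hn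
  positivity

theorem hh_le_one (n : ℕ) : hh n ≤ 1 := by
  unfold hh
  rcases Nat.eq_zero_or_pos n with h | h
  · simp [h]
  · rw [div_le_one (by positivity)]
    exact_mod_cast Nat.totient_le n

theorem hh_mul {a b : ℕ} (h : Nat.Coprime a b) : hh (a * b) = hh a * hh b := by
  unfold hh
  rw [Nat.totient_mul h]
  push_cast
  rw [div_mul_div_comm]

theorem hh_mul_le {a b : ℕ} (h : Nat.Coprime a b) (ha : 0 < a) : hh (a * b) ≤ hh a := by
  rw [hh_mul h]
  have h1 := hh_pos ha
  have h2 := hh_le_one b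
  nlinarith

/-- the number of `N ≤ X` divisible by `m` with `N - 1` coprime to `k` -/
theorem SC4_count (X m k : ℕ) (hm : 0 < m) (hk : 0 < k) (hmk : Nat.Coprime m k) :
    (((Icc 1 X).filter (fun N => m ∣ N ∧ Nat.Coprime k (N - 1))).card : ℝ) ≤
      (X : ℝ) / m * hh k + k := by
  have h1 : ((Icc 1 X).filter (fun N => m ∣ N ∧ Nat.Coprime k (N - 1))).card ≤
      (range (X / m / k + 1) ×ˢ (range k).filter (fun b => k.Coprime b)).card := by
    refine Finset.card_le_card_of_injOn (fun N => (N / m / k, (N - 1) % k)) ?_ ?_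
    · intro N hN
      obtain ⟨hN1, hN2, hN3⟩ := mem_filter.1 (Finset.mem_coe.1 hN)
      obtain ⟨hN4, hN5⟩ := mem_Icc.1 hN1
      rw [Finset.mem_coe, mem_product, mem_range, mem_filter, mem_range]
      refine ⟨?_, Nat.mod_lt _ hk, ?_⟩
      · exact Nat.lt_succ_of_le (Nat.div_le_div_right (Nat.div_le_div_right hN5))
      · rw [Nat.Coprime, Nat.gcd_comm, ← Nat.gcd_rec]
        exact hN3
    · intro N hN M hM hNM
      obtain ⟨hN1, hN2, hN3⟩ := mem_filter.1 (Finset.mem_coe.1 hN)
      obtain ⟨hN4, hN5⟩ := mem_Icc.1 hN1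
      obtain ⟨hM1, hM2, hM3⟩ := mem_filter.1 (Finset.mem_coe.1 hM)
      obtain ⟨hM4, hM5⟩ := mem_Icc.1 hM1
      simp only [Prod.mk.injEq] at hNM
      obtain ⟨h1, h2⟩ := hNM
      obtain ⟨s, hs⟩ := hN2
      obtain ⟨t, ht⟩ := hM2
      have h3 : N - 1 ≡ M - 1 [MOD k] := h2
      have h4 : N ≡ M [MOD k] := by
        have := h3.add_right 1
        rwa [Nat.sub_add_cancel hN4, Nat.sub_add_cancel hM4] at this
      rw [hs, ht] at h4
      have h5 : s ≡ t [MOD k] := Nat.ModEq.cancel_left_of_coprime (by rw [Nat.gcd_comm]; exact hmk) h4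
      rw [hs, ht, Nat.mul_div_cancel_left _ hm, Nat.mul_div_cancel_left _ hm] at h1
      have h6 : s = t := by
        have e1 := Nat.div_add_mod s k
        have e2 := Nat.div_add_mod t k
        have e3 : s % k = t % k := h5
        rw [← e1, ← e2, h1, e3]
      rw [hs, ht, h6]
  rw [card_product, card_range] at h1
  have h2 : ((range k).filter (fun b => k.Coprime b)).card = k.totient := rfl
  rw [h2] at h1
  have h3 : (((X / m / k : ℕ) : ℕ) : ℝ) ≤ (X : ℝ) / m / k := by
    refine Nat.cast_div_le.trans ?_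
    exact div_le_div_of_nonneg_right Nat.cast_div_le (Nat.cast_nonneg _)
  calc _ ≤ (((X / m / k + 1) * k.totient : ℕ) : ℝ) := by exact_mod_cast h1
    _ = (((X / m / k : ℕ) : ℝ) + 1) * k.totient := by push_cast; ring
    _ ≤ ((X : ℝ) / m / k + 1) * k.totient :=
        mul_le_mul_of_nonneg_right (by linarith) (Nat.cast_nonneg _)
    _ = (X : ℝ) / m * hh k + k.totient := by
        unfold hh
        ring
    _ ≤ (X : ℝ) / m * hh k + k := by
        have : (k.totient : ℝ) ≤ k := by exact_mod_cast Nat.totient_le k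
        linarith

/-- the number of `N ≤ X` divisible by `m` with `N - q` prime -/
theorem SC4_shift : ∃ C : ℝ, 0 < C ∧ ∀ X m q : ℕ, 3 ≤ X → 1 ≤ m → (m : ℝ) ≤ (Real.log X) ^ 2 →
    (((Icc 1 X).filter (fun N => m ∣ N ∧ q < N ∧ (N - q).Prime)).card : ℝ) ≤
      C * ((X : ℝ) / (m * hh m) / Real.log X) + Real.sqrt X + 1 := by
  obtain ⟨C, hC, hθ⟩ := theta_ap 4 1 one_pos
  refine ⟨2 * (1 + 1 * C), by positivity, fun X m q hX hm hmL => ?_⟩
  have hXr : (3 : ℝ) ≤ X := by exact_mod_cast hX
  have hX0 : (0 : ℝ) < X := by linarith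
  have hm0 : 0 < m := hm
  have hmr : (1 : ℝ) ≤ m := by exact_mod_cast hm
  obtain ⟨L, hL⟩ : ∃ L : ℝ, L = Real.log X := ⟨_, rfl⟩
  rw [← hL] at hmL ⊢
  have hL1 : 1 < L := by
    rw [hL, Real.lt_log_iff_exp_lt hX0]
    have := Real.exp_one_lt_d9
    linarith
  have hφ : (0 : ℝ) < m.totient := by exact_mod_cast Nat.totient_pos.2 hm0
  have hmh : (m : ℝ) * hh m = m.totient := by
    unfold hh
    field_simp
  rw [hmh]
  -- the map `N ↦ N - q`
  by_cases hq : Nat.Coprime q m
  · -- the class `-q`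
    obtain ⟨b, hb1, hb2⟩ : ∃ b : ℕ, b + q ≡ 0 [MOD m] ∧ Nat.Coprime b m := by
      refine ⟨(m - 1) * q, ?_, ?_⟩
      · have : (m - 1) * q + q = m * q := by
          obtain ⟨r, hr⟩ : ∃ r, m = r + 1 := ⟨m - 1, by omega⟩
          rw [hr]
          simp
          ring
        rw [this]
        exact (Nat.modEq_zero_iff_dvd).2 ⟨q, rfl⟩
      · refine Nat.Coprime.mul_left ?_ hq
        obtain ⟨r, hr⟩ : ∃ r, m = r + 1 := ⟨m - 1, by omega⟩
        rw [hr]
        simp
    have h1 : ((Icc 1 X).filter (fun N => m ∣ N ∧ q < N ∧ (N - q).Prime)).card ≤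
        ((Icc 1 X).filter (fun n => n.Prime ∧ n ≡ b [MOD m])).card := by
      refine Finset.card_le_card_of_injOn (fun N => N - q) ?_ ?_
      · intro N hN
        obtain ⟨hN1, hN2, hN3, hN4⟩ := mem_filter.1 (Finset.mem_coe.1 hN)
        obtain ⟨hN5, hN6⟩ := mem_Icc.1 hN1
        rw [Finset.mem_coe, mem_filter, mem_Icc]
        refine ⟨⟨hN4.one_lt.le, (Nat.sub_le _ _).trans hN6⟩, hN4, ?_⟩
        have h2 : (N - q) + q ≡ b + q [MOD m] := by
          rw [Nat.sub_add_cancel hN3.le]
          exact ((Nat.modEq_zero_iff_dvd).2 hN2).trans hb1.symm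
        exact Nat.ModEq.add_right_cancel' q h2
      · intro N hN M hM hNM
        obtain ⟨-, -, hN3, -⟩ := mem_filter.1 (Finset.mem_coe.1 hN)
        obtain ⟨-, -, hM3, -⟩ := mem_filter.1 (Finset.mem_coe.1 hM)
        simp only at hNM
        omega
    have h2 := hθ m b hm hb2 X (by linarith)
    rw [Nat.floor_natCast, Real.rpow_one, ← hL] at h2
    obtain ⟨A, hA⟩ : ∃ A : Finset ℕ, A = (Icc 1 X).filter (fun n => n.Prime ∧ n ≡ b [MOD m]) :=
      ⟨_, rfl⟩
    rw [← hA] at h1 h2
    have h3 : (A.card : ℝ) ≤ (∑ n ∈ A, Real.log n) / (L / 2) + Real.sqrt X := by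
      have e1 : A.card = (A.filter (fun n : ℕ => Real.sqrt X < n)).card +
          (A.filter (fun n : ℕ => ¬ Real.sqrt X < n)).card :=
        (Finset.card_filter_add_card_filter_not _).symm
      have e2 : ((A.filter (fun n : ℕ => Real.sqrt X < n)).card : ℝ) ≤
          (∑ n ∈ A, Real.log n) / (L / 2) := by
        rw [le_div_iff₀ (by linarith)]
        calc ((A.filter (fun n : ℕ => Real.sqrt X < n)).card : ℝ) * (L / 2)
            = ∑ _n ∈ A.filter (fun n : ℕ => Real.sqrt X < n), (L / 2) := by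
              rw [sum_const, nsmul_eq_mul]
          _ ≤ ∑ n ∈ A.filter (fun n : ℕ => Real.sqrt X < n), Real.log n := by
              refine sum_le_sum fun n hn => ?_
              rw [hL, ← Real.log_sqrt hX0.le]
              exact Real.log_le_log (Real.sqrt_pos.2 hX0) (mem_filter.1 hn).2.le
          _ ≤ ∑ n ∈ A, Real.log n :=
              sum_le_sum_of_subset_of_nonneg (filter_subset _ _)
                (fun n _ _ => Real.log_natCast_nonneg n)
      have e3 : ((A.filter (fun n : ℕ => ¬ Real.sqrt X < n)).card : ℝ) ≤ Real.sqrt X := by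
        have e4 : A.filter (fun n : ℕ => ¬ Real.sqrt X < n) ⊆ Icc 1 ⌊Real.sqrt X⌋₊ := by
          intro n hn
          obtain ⟨hn1, hn2⟩ := mem_filter.1 hn
          rw [hA] at hn1
          exact mem_Icc.2 ⟨(mem_Icc.1 (mem_filter.1 hn1).1).1, Nat.le_floor (not_lt.1 hn2)⟩
        have e5 := card_le_card e4
        rw [Nat.card_Icc, Nat.add_sub_cancel] at e5
        calc ((A.filter (fun n : ℕ => ¬ Real.sqrt X < n)).card : ℝ) ≤ (⌊Real.sqrt X⌋₊ : ℝ) := by
              exact_mod_cast e5
          _ ≤ Real.sqrt X := Nat.floor_le (Real.sqrt_nonneg _)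
      rw [e1]
      push_cast
      linarith
    have h4 : ∑ n ∈ A, Real.log n ≤ (1 + 1 * C) * (X / m.totient) := by
      have e1 := (abs_le.1 h2).2
      have e2 : C * (m : ℝ) * X / L ^ 4 ≤ C * (X / m.totient) := by
        rw [← mul_div_assoc, div_le_div_iff₀ (by positivity) hφ]
        have e3 : (m.totient : ℝ) ≤ m := by exact_mod_cast Nat.totient_le m
        have e4 : (m : ℝ) * m.totient ≤ L ^ 4 := by
          calc (m : ℝ) * m.totient ≤ L ^ 2 * L ^ 2 :=
                mul_le_mul hmL (e3.trans hmL) hφ.le (by positivity)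
            _ = L ^ 4 := by ring
        calc C * (m : ℝ) * X * m.totient = (C * X) * (m * m.totient) := by ring
          _ ≤ (C * X) * L ^ 4 := mul_le_mul_of_nonneg_left e4 (by positivity)
          _ = C * X * L ^ 4 := rfl
      have e5 : (1 + 1 * C) * ((X : ℝ) / m.totient) = X / m.totient + C * (X / m.totient) := by
        ring
      linarith
    have h5 : ((((Icc 1 X).filter (fun N => m ∣ N ∧ q < N ∧ (N - q).Prime)).card : ℕ) : ℝ) ≤
        (A.card : ℝ) := by exact_mod_cast h1
    have h6 : (∑ n ∈ A, Real.log n) / (L / 2) ≤ 2 * (1 + 1 * C) * (X / m.totient / L) := by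
      calc (∑ n ∈ A, Real.log n) / (L / 2) ≤ ((1 + 1 * C) * (X / m.totient)) / (L / 2) :=
            div_le_div_of_nonneg_right h4 (by linarith)
        _ = 2 * (1 + 1 * C) * (X / m.totient / L) := by
            field_simp
    linarith
  · -- `q` and `m` have a common factor: at most one `N`... (`N - q` is this factor)
    have h1 : (((Icc 1 X).filter (fun N => m ∣ N ∧ q < N ∧ (N - q).Prime)).card : ℝ) ≤ 1 := by
      have h2 : ((Icc 1 X).filter (fun N => m ∣ N ∧ q < N ∧ (N - q).Prime)).card ≤ 1 := by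
        refine Finset.card_le_one.2 ?_
        intro N hN M hM
        obtain ⟨-, hN2, hN3, hN4⟩ := mem_filter.1 hN
        obtain ⟨-, hM2, hM3, hM4⟩ := mem_filter.1 hM
        have h3 : Nat.gcd q m ≠ 1 := hq
        have key : ∀ N, m ∣ N → q < N → (N - q).Prime → N - q = Nat.gcd q m := by
          intro N h4 h5 h6
          have h7 : Nat.gcd q m ∣ N - q :=
            Nat.dvd_sub ((Nat.gcd_dvd_right q m).trans h4) (Nat.gcd_dvd_left q m)
          rcases (Nat.dvd_prime h6).1 h7 with h8 | h8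
          · exact absurd h8 h3
          · exact h8.symm
        have a1 := key N hN2 hN3 hN4
        have a2 := key M hM2 hM3 hM4
        omega
      exact_mod_cast h2
    have h3 : 0 ≤ 2 * (1 + 1 * C) * ((X : ℝ) / m.totient / L) := by positivity
    have h4 := Real.sqrt_nonneg (X : ℝ)
    linarith

end Pool.Agent.Lib.SW
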