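import Pool.Agent.Lib.SW.SC.SC4

/-!
# SC5: sharpness of `theta_lower`, assembly
-/

open Finset Filter Topology

namespace Pool.Agent.Lib.SW

theorem SC5_alg (W W₀ m : ℕ) (hW : Squarefree W) (h0 : W₀ ∣ W) (hm : m ∣ W) :
    0 < Nat.gcd W₀ (W / m) ∧ Nat.Coprime m (Nat.gcd W₀ (W / m)) ∧
      hh (Nat.gcd W₀ (W / m)) * hh W ≤ hh W₀ * hh (W / m) ∧ hh W ≤ hh m ∧ hh W ≤ hh (W / m) := by
  have hW0 : 0 < W := Nat.pos_of_ne_zero hW.ne_zero
  obtain ⟨R, hR⟩ := hm
  have hm0 : 0 < m := Nat.pos_of_ne_zero (by rintro rfl; simp at hR; omega)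
  have hR0 : 0 < R := Nat.pos_of_ne_zero (by rintro rfl; simp at hR; omega)
  have hRW : W / m = R := by
    rw [hR]
    exact Nat.mul_div_cancel_left R hm0
  rw [hRW]
  have hmR : Nat.Coprime m R := by
    rw [hR] at hW
    exact Nat.coprime_of_squarefree_mul hW
  obtain ⟨V, hV⟩ := h0
  have hW₀0 : 0 < W₀ := Nat.pos_of_ne_zero (by rintro rfl; simp at hV; omega)
  have hV0 : 0 < V := Nat.pos_of_ne_zero (by rintro rfl; simp at hV; omega)
  have hWV : Nat.Coprime W₀ V := by
    rw [hV] at hW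
    exact Nat.coprime_of_squarefree_mul hW
  obtain ⟨k, hk⟩ : ∃ k, k = Nat.gcd W₀ R := ⟨_, rfl⟩
  rw [← hk]
  have hkW : k ∣ W₀ := hk ▸ Nat.gcd_dvd_left _ _
  have hkR : k ∣ R := hk ▸ Nat.gcd_dvd_right _ _
  have hk0 : 0 < k := Nat.pos_of_dvd_of_pos hkR hR0
  have hRsq : Squarefree R := hW.squarefree_of_dvd ⟨m, by rw [hR]; ring⟩
  obtain ⟨R', hR'⟩ := hkR
  have hR'0 : 0 < R' := Nat.pos_of_ne_zero (by rintro rfl; simp at hR'; omega)
  have hkR' : Nat.Coprime k R' := by
    rw [hR'] at hRsq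
    exact Nat.coprime_of_squarefree_mul hRsq
  -- `R'` is coprime to `W₀`, hence divides `V`
  have hR'W : Nat.Coprime R' W₀ := by
    have h1 : Nat.gcd R' W₀ ∣ k := by
      rw [hk]
      refine Nat.dvd_gcd (Nat.gcd_dvd_right _ _) ?_
      exact (Nat.gcd_dvd_left _ _).trans ⟨k, by rw [hR']; ring⟩
    have h2 : Nat.gcd R' W₀ ∣ Nat.gcd k R' := Nat.dvd_gcd h1 (Nat.gcd_dvd_left _ _)
    rw [hkR'] at h2
    exact Nat.dvd_one.1 h2
  have hR'V : R' ∣ V := by
    have h1 : R' ∣ W₀ * V := by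
      rw [← hV, hR, hR']
      exact ⟨m * k, by ring⟩
    exact hR'W.dvd_of_dvd_mul_left h1
  obtain ⟨V', hV'⟩ := hR'V
  have hVsq : Squarefree V := hW.squarefree_of_dvd ⟨W₀, by rw [hV]; ring⟩
  have hR'V' : Nat.Coprime R' V' := by
    rw [hV'] at hVsq
    exact Nat.coprime_of_squarefree_mul hVsq
  refine ⟨hk0, Nat.Coprime.coprime_dvd_right (Dvd.intro _ hR'.symm) hmR, ?_, ?_, ?_⟩
  · have h1 : hh V ≤ hh R' := by
      rw [hV']
      exact hh_mul_le hR'V' hR'0
    have h2 : hh R = hh k * hh R' := by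
      rw [hR']
      exact hh_mul hkR'
    have h3 : hh W = hh W₀ * hh V := by
      rw [hV]
      exact hh_mul hWV
    rw [h2, h3]
    have h4 := hh_pos hk0
    have h5 := hh_pos hW₀0
    have h6 : hh k * (hh W₀ * hh V) ≤ hh k * (hh W₀ * hh R') :=
      mul_le_mul_of_nonneg_left (mul_le_mul_of_nonneg_left h1 h5.le) h4.le
    linarith
  · rw [hR]
    exact hh_mul_le hmR hm0
  · rw [hR, mul_comm]
    exact hh_mul_le hmR.symm hR0

theorem SC5_prim_dvd {a b : ℕ} (h : a ≤ b) : primorial a ∣ primorial b := by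
  unfold primorial
  refine Finset.prod_dvd_prod_of_subset _ _ _ ?_
  intro p hp
  simp only [Finset.mem_filter, Finset.mem_range] at hp ⊢
  exact ⟨by omega, hp.2⟩

theorem theta_upper (ε : ℝ) (hε : 0 < ε) : ∃ X₀ : ℕ, ∀ X : ℕ, X₀ ≤ X → ∃ S : Finset ℕ,
    (∀ s ∈ S, s.Prime ∧ s ≤ X) ∧
    (∀ Y : ℕ, Real.sqrt X ≤ Y → Y ≤ X →
      Y / (Real.log Y) ^ 2 ≤ ((S.filter (fun s => s ≤ Y)).card : ℝ)) ∧
    ∀ m : ℕ, m ∣ WX X →
      (((Icc 1 X).filter (fun N => m ∣ N ∧ ∃ s ∈ S, s < N ∧ (N - s).Prime)).card : ℝ) ≤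
        (1 + ε) * X * ((WX X / m).totient : ℝ) / WX X := by
  obtain ⟨C, hC, hθ⟩ := theta_ap 3 1 one_pos
  obtain ⟨C₁, hC₁, hshift⟩ := SC4_shift
  obtain ⟨δ, hδ, hδε⟩ : ∃ δ : ℝ, 0 < δ ∧ δ ≤ ε / 8 := ⟨ε / 8, by positivity, le_rfl⟩
  -- the two Mertens products
  have hm1 : ∀ᶠ X : ℕ in atTop, hh (primorial ⌊1 / 4 * Real.log (Real.log X)⌋₊) ≤
      (1 + δ) * hh (WX X) := by
    have a1 := (LG3_mertens (1 / 4) (by norm_num)).comp LG3_loglog
    have a2 := (LG3_mertens 1 one_pos).comp LG3_loglog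
    have a3 := a1.div a2 (Real.exp_pos _).ne'
    rw [div_self (Real.exp_pos _).ne'] at a3
    have a4 := a3.eventually_lt_const (show (1 : ℝ) < 1 + δ by linarith)
    filter_upwards [a4, LG3_log3_ev 1] with X h1 h2
    simp only [Pi.div_apply, Function.comp_apply] at h1
    have h3 : 0 < Real.log (Real.log (Real.log X)) := by linarith
    rw [one_mul] at h1
    have e1 : hh (WX X) = LG3V ⌊Real.log (Real.log X)⌋₊ := by
      rw [← LG3_V]
      rfl
    have e2 : hh (primorial ⌊1 / 4 * Real.log (Real.log X)⌋₊) =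
        LG3V ⌊1 / 4 * Real.log (Real.log X)⌋₊ := by
      rw [← LG3_V]
      rfl
    rw [← e1, ← e2, mul_div_mul_left _ _ h3.ne', div_lt_iff₀ (hh_pos (WX_pos X))] at h1
    exact h1.le
  have hm2 : ∀ᶠ X : ℕ in atTop, cX X ≤ 3 * Real.log (Real.log (Real.log X)) := by
    have h0 : Real.exp Real.eulerMascheroniConstant < 3 := by
      have h1 : Real.exp Real.eulerMascheroniConstant ≤ Real.exp 1 := by
        rw [Real.exp_le_exp]
        have := Real.eulerMascheroniConstant_lt_two_thirds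
        linarith
      have := Real.exp_one_lt_d9
      linarith
    filter_upwards [cX_ratio.eventually_lt_const h0, LG3_log3_ev 1] with X h1 h2
    rw [div_lt_iff₀ (by linarith)] at h1
    exact h1.le
  have hm3 : ∀ᶠ X : ℕ in atTop, (Real.log (Real.log X)) ^ 4 * (C₁ * 9) ≤ δ * Real.log X := by
    have h1 : ∀ᶠ y : ℝ in atTop, (Real.log y) ^ 4 * (C₁ * 9) ≤ δ * y := by
      have h2 : (fun x : ℝ => Real.log x ^ 4) =o[atTop] id := Real.isLittleO_pow_log_id_atTop
      have h3 := h2.def (show (0 : ℝ) < δ / (C₁ * 9) by positivity)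
      filter_upwards [h3, eventually_ge_atTop 1] with y hy hy1
      simp only [id, Real.norm_eq_abs] at hy
      rw [abs_of_nonneg (by positivity), abs_of_nonneg (by linarith)] at hy
      calc (Real.log y) ^ 4 * (C₁ * 9) ≤ (δ / (C₁ * 9) * y) * (C₁ * 9) :=
            mul_le_mul_of_nonneg_right hy (by positivity)
        _ = δ * y := by field_simp
    exact SC2_log.eventually h1
  obtain ⟨X₀, hX₀⟩ := eventually_atTop.1 (hm1.and (hm2.and (hm3.and ((LG3_log3_ev 1).and
    ((LG3_log_ev (max 16 C)).and ((ev_pow ((12 / δ) ^ 2) 8).and ((ev_pow (3 / δ) 4).and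
      (eventually_ge_atTop 16))))))))
  refine ⟨X₀, fun X hX => ?_⟩
  obtain ⟨k1, k2, k3, k4, k5, k6, k7, k8⟩ := hX₀ X hX
  obtain ⟨L, hL⟩ : ∃ L, L = Real.log X := ⟨_, rfl⟩
  obtain ⟨M, hM⟩ : ∃ M, M = Real.log L := ⟨_, rfl⟩
  obtain ⟨T, hT⟩ : ∃ T, T = Real.log M := ⟨_, rfl⟩
  rw [← hL, ← hM] at k1
  rw [← hL, ← hM, ← hT] at k2
  rw [← hL, ← hM] at k3
  rw [← hL, ← hM, ← hT] at k4
  rw [← hL] at k5 k6 k7
  have hL16 : 16 ≤ L := (le_max_left _ _).trans k5
  have hLC : C ≤ L := (le_max_right _ _).trans k5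
  have hM1 : 1 ≤ M := by
    have h1 : (1 : ℝ) ≤ T := k4
    by_contra hcon
    have h2 : M < 1 := lt_of_not_ge hcon
    have h3 : 0 ≤ M := by
      rw [hM]
      exact Real.log_nonneg (by linarith)
    have h4 : T ≤ 0 := by
      rw [hT]
      exact Real.log_nonpos h3 h2.le
    linarith
  have hTM : T ≤ M := by
    rw [hT]
    exact (Real.log_le_sub_one_of_pos (by linarith)).trans (by linarith)
  have hML : M ≤ L := by
    rw [hM]
    exact (Real.log_le_sub_one_of_pos (by linarith)).trans (by linarith)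
  have hXr : (16 : ℝ) ≤ X := by exact_mod_cast k8
  have hX0 : (0 : ℝ) < X := by linarith
  have hL1' : 1 ≤ Real.log X := by rw [← hL]; linarith
  obtain ⟨z, hz⟩ : ∃ z, z = ⌊1 / 4 * M⌋₊ := ⟨_, rfl⟩
  rw [← hz] at k1
  have hzM : (z : ℝ) ≤ 1 / 4 * M := by
    rw [hz]
    exact Nat.floor_le (by linarith)
  obtain ⟨W, hW⟩ : ∃ W, W = primorial z := ⟨_, rfl⟩
  rw [← hW] at k1
  have hW0 : 0 < W := by
    rw [hW]
    exact primorial_pos z
  have hW1 : (1 : ℝ) ≤ W := by exact_mod_cast hW0
  have hWL : (W : ℝ) ≤ √L := by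
    have h1 := LG3_four_pow (by linarith : 0 ≤ M) hzM
    rw [← hW] at h1
    refine h1.trans (le_of_eq ?_)
    rw [Real.exp_half, hM, Real.exp_log (by linarith)]
  have hsL : √L ≤ L / 4 := by
    have h1 := Real.sq_sqrt (by linarith : 0 ≤ L)
    have h2 : 4 ≤ √L := by
      rw [Real.le_sqrt (by norm_num) (by linarith)]
      linarith
    nlinarith
  have hφ : 0 < W.totient := Nat.totient_pos.2 hW0
  have hφ' : (0 : ℝ) < W.totient := by exact_mod_cast hφ
  have hφW : (W.totient : ℝ) ≤ W := by exact_mod_cast Nat.totient_le W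
  refine ⟨(Icc 1 X).filter (fun s => s.Prime ∧ s ≡ 1 [MOD W]), ?_, ?_, ?_⟩
  · intro s hs
    obtain ⟨hs1, hs2, -⟩ := mem_filter.1 hs
    exact ⟨hs2, (mem_Icc.1 hs1).2⟩
  · intro Y hY1 hY2
    have h4 : (4 : ℝ) ≤ √X := by
      rw [Real.le_sqrt (by norm_num) (by linarith)]
      linarith
    have hY0 : (4 : ℝ) ≤ Y := h4.trans hY1
    have hlY : L / 2 ≤ Real.log Y := by
      rw [hL, ← Real.log_sqrt (by linarith)]
      exact Real.log_le_log (by linarith) hY1
    have h1 := hθ W 1 hW0 (Nat.coprime_one_left W) Y (by linarith)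
    rw [Nat.floor_natCast, Real.rpow_one] at h1
    have h2 : (Icc 1 Y).filter (fun n => n.Prime ∧ n ≡ 1 [MOD W]) ⊆
        ((Icc 1 X).filter (fun s => s.Prime ∧ s ≡ 1 [MOD W])).filter (fun s => s ≤ Y) := by
      intro s hs
      obtain ⟨hs1, hs2⟩ := mem_filter.1 hs
      obtain ⟨hs3, hs4⟩ := mem_Icc.1 hs1
      exact mem_filter.2 ⟨mem_filter.2 ⟨mem_Icc.2 ⟨hs3, hs4.trans hY2⟩, hs2⟩, hs4⟩
    refine le_trans ?_ (Nat.cast_le.2 (card_le_card h2))
    have h3 : ∑ n ∈ (Icc 1 Y).filter (fun n => n.Prime ∧ n ≡ 1 [MOD W]), Real.log n ≤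
        (((Icc 1 Y).filter (fun n => n.Prime ∧ n ≡ 1 [MOD W])).card : ℝ) * Real.log Y := by
      rw [← nsmul_eq_mul, ← sum_const]
      refine sum_le_sum fun n hn => ?_
      obtain ⟨hn1, hn2⟩ := mem_Icc.1 (mem_filter.1 hn).1
      exact Real.log_le_log (by exact_mod_cast hn1) (by exact_mod_cast hn2)
    generalize (((Icc 1 Y).filter (fun n => n.Prime ∧ n ≡ 1 [MOD W])).card : ℝ) = c at *
    generalize ∑ n ∈ (Icc 1 Y).filter (fun n => n.Prime ∧ n ≡ 1 [MOD W]), Real.log n = A at *
    have hYp : (0 : ℝ) < Y := by linarith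
    generalize hl : Real.log Y = l at *
    have hl0 : 0 < l := by linarith
    have h5 : (Y : ℝ) / W ≤ Y / W.totient := div_le_div_of_nonneg_left hYp.le hφ' hφW
    have hWl : (W : ℝ) ≤ l / 2 := by linarith
    have h6 : 2 * (Y / l) ≤ (Y : ℝ) / W := by
      rw [le_div_iff₀ (by linarith)]
      calc 2 * (Y / l) * W ≤ 2 * (Y / l) * (l / 2) :=
            mul_le_mul_of_nonneg_left hWl (by positivity)
        _ = Y := by field_simp
    have h7 : C * W * Y / l ^ 3 ≤ Y / l := by
      rw [div_le_div_iff₀ (by positivity) hl0]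
      have h8 : C * W ≤ l * l := by
        have h9 : C ≤ 2 * l := by linarith
        calc C * W ≤ (2 * l) * (l / 2) := mul_le_mul h9 hWl (by linarith) (by linarith)
          _ = l * l := by ring
      calc C * W * Y * l ≤ (l * l) * Y * l := by
            refine mul_le_mul_of_nonneg_right (mul_le_mul_of_nonneg_right h8 hYp.le) hl0.le
        _ = Y * l ^ 3 := by ring
    have h8 := (abs_le.1 h1).1
    have h9 : Y / l ≤ c * l := by linarith
    rw [div_le_iff₀ (by positivity)]
    rw [div_le_iff₀ hl0] at h9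
    calc (Y : ℝ) ≤ c * l * l := h9
      _ = c * l ^ 2 := by ring
  · -- the upper bound
    intro m hm
    have hWXsq : Squarefree (WX X) := WX_squarefree _
    have hzw : z ≤ wX X := by
      rw [hz]
      unfold wX
      rw [← hL, ← hM]
      refine Nat.floor_mono ?_
      linarith
    have hWdvd : W ∣ WX X := by
      rw [hW]
      exact SC5_prim_dvd hzw
    obtain ⟨a1, a2, a3, a4, a5⟩ := SC5_alg (WX X) W m hWXsq hWdvd hm
    obtain ⟨k, hk⟩ : ∃ k, k = Nat.gcd W (WX X / m) := ⟨_, rfl⟩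
    rw [← hk] at a1 a2 a3
    have hkW : k ∣ W := hk ▸ Nat.gcd_dvd_left _ _
    have hWXpos := WX_pos X
    have hm0 : 0 < m := Nat.pos_of_dvd_of_pos hm hWXpos
    have hmr : (0 : ℝ) < m := by exact_mod_cast hm0
    have hWXL : (WX X : ℝ) ≤ L ^ 2 := by
      rw [hL]
      exact WX_le X hL1'
    have hmW : (m : ℝ) ≤ WX X := by exact_mod_cast Nat.le_of_dvd hWXpos hm
    have hmL : (m : ℝ) ≤ L ^ 2 := hmW.trans hWXL
    have hcov : (Icc 1 X).filter (fun N => m ∣ N ∧ ∃ s ∈ (Icc 1 X).filter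
        (fun s => s.Prime ∧ s ≡ 1 [MOD W]), s < N ∧ (N - s).Prime) ⊆
        (Icc 1 z).biUnion (fun q => (Icc 1 X).filter (fun N => m ∣ N ∧ q < N ∧ (N - q).Prime)) ∪
        (Icc 1 X).filter (fun N => m ∣ N ∧ Nat.Coprime k (N - 1)) := by
      intro N hN
      obtain ⟨hN1, hN2, s, hs, hsn, hp⟩ := mem_filter.1 hN
      obtain ⟨hs1, hs2, hs3⟩ := mem_filter.1 hs
      rw [mem_union]
      by_cases hpz : N - s ≤ z
      · left
        refine mem_biUnion.2 ⟨N - s, mem_Icc.2 ⟨by omega, hpz⟩, mem_filter.2 ⟨hN1, hN2, ?_, ?_⟩⟩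
        · have := hs2.pos
          omega
        · have e1 : N - (N - s) = s := by omega
          rw [e1]
          exact hs2
      · right
        refine mem_filter.2 ⟨hN1, hN2, ?_⟩
        have h1 : Nat.Coprime W (N - s) := by
          rw [Nat.coprime_comm, Nat.Prime.coprime_iff_not_dvd hp, hW, hp.dvd_primorial_iff]
          exact hpz
        have h2 : W ∣ s - 1 := (Nat.modEq_iff_dvd' hs2.one_lt.le).1 hs3.symm
        obtain ⟨r, hr⟩ := h2
        have hs1' := hs2.one_lt
        have h3 : N - 1 = (N - s) + W * r := by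
          rw [← hr]
          omega
        have h4 : Nat.Coprime W (N - 1) := by
          rw [h3]
          exact (Nat.coprime_add_mul_left_right _ _ _).2 h1
        exact Nat.Coprime.coprime_dvd_left hkW h4
    have htot := (Nat.cast_le (α := ℝ)).2 ((card_le_card hcov).trans (card_union_le _ _))
    push_cast at htot
    refine htot.trans ?_
    obtain ⟨R, hR⟩ : ∃ R, R = WX X / m := ⟨_, rfl⟩
    rw [← hR] at a3 a5 ⊢
    have hRm : WX X = m * R := by
      rw [hR]
      exact (Nat.mul_div_cancel' hm).symm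
    have hR0 : 0 < R := Nat.pos_of_ne_zero (by rintro rfl; simp at hRm; omega)
    have hRr : (0 : ℝ) < R := by exact_mod_cast hR0
    have htarget : (1 + ε) * X * (R.totient : ℝ) / WX X = (1 + ε) * (X / m * hh R) := by
      unfold hh
      rw [hRm]
      push_cast
      field_simp
    rw [htarget]
    -- the constants
    have hhW : hh (WX X) = 1 / cX X := by
      unfold hh cX
      rw [one_div_div]
    have hc1 := one_le_cX X
    have hcpos : 0 < cX X := by linarith
    have hhWpos : 0 < hh (WX X) := hh_pos hWXpos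
    have hc3 : cX X ≤ 3 * M := k2.trans (by linarith)
    have hhRlow : 1 / (3 * M) ≤ hh R := by
      refine le_trans ?_ a5
      rw [hhW]
      exact one_div_le_one_div_of_le hcpos hc3
    have hhmlow : 1 / (3 * M) ≤ hh m := by
      refine le_trans ?_ a4
      rw [hhW]
      exact one_div_le_one_div_of_le hcpos hc3
    obtain ⟨Z, hZ⟩ : ∃ Z : ℝ, Z = X / m * hh R := ⟨_, rfl⟩
    rw [← hZ]
    have hZlow : X / (L ^ 2 * (3 * M)) ≤ Z := by
      rw [hZ]
      calc (X : ℝ) / (L ^ 2 * (3 * M)) = X / L ^ 2 * (1 / (3 * M)) := by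
            field_simp
        _ ≤ X / m * hh R := by
            refine mul_le_mul ?_ hhRlow (by positivity) (by positivity)
            exact div_le_div_of_nonneg_left hX0.le hmr hmL
    have hZ0 : 0 < Z := lt_of_lt_of_le (by positivity) hZlow
    -- first part
    have hfirst : ((((Icc 1 z).biUnion (fun q => (Icc 1 X).filter
        (fun N => m ∣ N ∧ q < N ∧ (N - q).Prime))).card : ℕ) : ℝ) ≤ 2 * δ * Z := by
      have h1 : ((((Icc 1 z).biUnion (fun q => (Icc 1 X).filter
          (fun N => m ∣ N ∧ q < N ∧ (N - q).Prime))).card : ℕ) : ℝ) ≤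
          ∑ _q ∈ Icc 1 z, (C₁ * ((X : ℝ) / (m * hh m) / L) + Real.sqrt X + 1) := by
        refine (Nat.cast_le.2 card_biUnion_le).trans ?_
        push_cast
        refine sum_le_sum fun q _ => ?_
        rw [hL]
        exact hshift X m q (by omega) hm0 (by rw [← hL]; exact hmL)
      refine h1.trans ?_
      rw [sum_const, Nat.card_Icc, Nat.add_sub_cancel, nsmul_eq_mul]
      have hz1 : (z : ℝ) ≤ M := by linarith
      have hz0 : (0 : ℝ) ≤ z := Nat.cast_nonneg z
      have e1 : C₁ * ((X : ℝ) / (m * hh m) / L) * M ≤ δ * Z := by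
        have f1 : (X : ℝ) / (m * hh m) ≤ X / m * (3 * M) := by
          have hhm := hh_pos hm0
          rw [← div_div, div_le_iff₀ hhm]
          have f2 : 1 ≤ 3 * M * hh m := by
            rw [div_le_iff₀ (by linarith)] at hhmlow
            linarith
          have f3 : 0 ≤ (X : ℝ) / m := by positivity
          calc (X : ℝ) / m = X / m * 1 := (mul_one _).symm
            _ ≤ X / m * (3 * M * hh m) := mul_le_mul_of_nonneg_left f2 f3
            _ = X / m * (3 * M) * hh m := by ring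
        have f4 : (X : ℝ) / m ≤ 3 * M * Z := by
          rw [hZ]
          have f5 : 1 ≤ 3 * M * hh R := by
            rw [div_le_iff₀ (by linarith)] at hhRlow
            linarith
          have f3 : 0 ≤ (X : ℝ) / m := by positivity
          calc (X : ℝ) / m = X / m * 1 := (mul_one _).symm
            _ ≤ X / m * (3 * M * hh R) := mul_le_mul_of_nonneg_left f5 f3
            _ = 3 * M * (X / m * hh R) := by ring
        have f6 : (X : ℝ) / (m * hh m) ≤ 9 * M ^ 2 * Z := by
          calc (X : ℝ) / (m * hh m) ≤ X / m * (3 * M) := f1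
            _ ≤ 3 * M * Z * (3 * M) := mul_le_mul_of_nonneg_right f4 (by linarith)
            _ = 9 * M ^ 2 * Z := by ring
        have hM34 : M ^ 3 ≤ M ^ 4 := pow_le_pow_right₀ hM1 (by norm_num)
        calc C₁ * ((X : ℝ) / (m * hh m) / L) * M ≤ C₁ * (9 * M ^ 2 * Z / L) * M := by
              refine mul_le_mul_of_nonneg_right (mul_le_mul_of_nonneg_left ?_ hC₁.le) (by linarith)
              exact div_le_div_of_nonneg_right f6 (by linarith)
          _ = (M ^ 3 * (C₁ * 9)) * Z / L := by ring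
          _ ≤ (M ^ 4 * (C₁ * 9)) * Z / L := by
              refine div_le_div_of_nonneg_right ?_ (by linarith)
              exact mul_le_mul_of_nonneg_right
                (mul_le_mul_of_nonneg_right hM34 (by positivity)) hZ0.le
          _ ≤ (δ * L) * Z / L := by
              refine div_le_div_of_nonneg_right ?_ (by linarith)
              exact mul_le_mul_of_nonneg_right k3 hZ0.le
          _ = δ * Z := by
              field_simp
      have e2 : (Real.sqrt X + 1) * M ≤ δ * Z := by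
        have g1 : 12 / δ * L ^ 4 ≤ Real.sqrt X := by
          refine Real.le_sqrt_of_sq_le ?_
          have g0 : (12 / δ * L ^ 4) ^ 2 = (12 / δ) ^ 2 * L ^ 8 := by ring
          rw [g0]
          exact k6
        have g2 : 1 ≤ Real.sqrt X := by
          rw [Real.one_le_sqrt]
          linarith
        have g3 := Real.mul_self_sqrt hX0.le
        have g4 : (Real.sqrt X + 1) * M ≤ 2 * Real.sqrt X * L := by
          refine mul_le_mul (by linarith) hML (by linarith) (by positivity)
        have g5 : X / (L ^ 2 * (3 * L)) ≤ Z := by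
          refine le_trans ?_ hZlow
          refine div_le_div_of_nonneg_left hX0.le (by positivity) ?_
          exact mul_le_mul_of_nonneg_left (by linarith) (by positivity)
        have g6 : 2 * Real.sqrt X * L ≤ δ * (X / (L ^ 2 * (3 * L))) := by
          rw [← mul_div_assoc, le_div_iff₀ (by positivity)]
          have g7 : 12 * L ^ 4 ≤ δ * Real.sqrt X := by
            have : 12 / δ * L ^ 4 * δ ≤ Real.sqrt X * δ := mul_le_mul_of_nonneg_right g1 hδ.le
            have g8 : 12 / δ * L ^ 4 * δ = 12 * L ^ 4 := by field_simp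
            linarith
          calc 2 * Real.sqrt X * L * (L ^ 2 * (3 * L)) = (6 * L ^ 4) * Real.sqrt X := by ring
            _ ≤ (δ * Real.sqrt X) * Real.sqrt X := by
                refine mul_le_mul_of_nonneg_right ?_ (Real.sqrt_nonneg _)
                have : 0 ≤ L ^ 4 := by positivity
                linarith
            _ = δ * X := by rw [mul_assoc, g3]
        calc (Real.sqrt X + 1) * M ≤ 2 * Real.sqrt X * L := g4
          _ ≤ δ * (X / (L ^ 2 * (3 * L))) := g6
          _ ≤ δ * Z := mul_le_mul_of_nonneg_left g5 hδ.le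
      have e3 : 0 ≤ C₁ * ((X : ℝ) / (m * hh m) / L) + Real.sqrt X + 1 := by
        have := hh_pos hm0
        positivity
      calc (z : ℝ) * (C₁ * ((X : ℝ) / (m * hh m) / L) + Real.sqrt X + 1)
          ≤ M * (C₁ * ((X : ℝ) / (m * hh m) / L) + Real.sqrt X + 1) :=
            mul_le_mul_of_nonneg_right hz1 e3
        _ = C₁ * ((X : ℝ) / (m * hh m) / L) * M + (Real.sqrt X + 1) * M := by ring
        _ ≤ 2 * δ * Z := by linarith
    -- second part
    have hsecond : (((Icc 1 X).filter (fun N => m ∣ N ∧ Nat.Coprime k (N - 1))).card : ℝ) ≤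
        (1 + 2 * δ) * Z := by
      have h1 := SC4_count X m k hm0 a1 a2
      have h2 : hh k ≤ (1 + δ) * hh R := by
        have h3 : hh k * hh (WX X) ≤ ((1 + δ) * hh R) * hh (WX X) := by
          calc hh k * hh (WX X) ≤ hh W * hh R := a3
            _ ≤ ((1 + δ) * hh (WX X)) * hh R :=
                mul_le_mul_of_nonneg_right k1 (hh_pos hR0).le
            _ = ((1 + δ) * hh R) * hh (WX X) := by ring
        exact le_of_mul_le_mul_right h3 hhWpos
      have h3 : (X : ℝ) / m * hh k ≤ (1 + δ) * Z := by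
        rw [hZ]
        calc (X : ℝ) / m * hh k ≤ X / m * ((1 + δ) * hh R) :=
              mul_le_mul_of_nonneg_left h2 (by positivity)
          _ = (1 + δ) * (X / m * hh R) := by ring
      have h4 : (k : ℝ) ≤ δ * Z := by
        have g1 : (k : ℝ) ≤ L := by
          have g2 : (k : ℝ) ≤ W := by exact_mod_cast Nat.le_of_dvd hW0 hkW
          linarith
        have g5 : X / (L ^ 2 * (3 * L)) ≤ Z := by
          refine le_trans ?_ hZlow
          refine div_le_div_of_nonneg_left hX0.le (by positivity) ?_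
          exact mul_le_mul_of_nonneg_left (by linarith) (by positivity)
        have g6 : L ≤ δ * (X / (L ^ 2 * (3 * L))) := by
          rw [← mul_div_assoc, le_div_iff₀ (by positivity)]
          have g7 : 3 / δ * L ^ 4 * δ ≤ X * δ := mul_le_mul_of_nonneg_right k7 hδ.le
          have g8 : 3 / δ * L ^ 4 * δ = 3 * L ^ 4 := by field_simp
          calc L * (L ^ 2 * (3 * L)) = 3 * L ^ 4 := by ring
            _ ≤ δ * X := by linarith
        calc (k : ℝ) ≤ L := g1
          _ ≤ δ * (X / (L ^ 2 * (3 * L))) := g6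
          _ ≤ δ * Z := mul_le_mul_of_nonneg_left g5 hδ.le
      linarith
    have hfin : 2 * δ * Z + (1 + 2 * δ) * Z ≤ (1 + ε) * Z := by
      have : 2 * δ * Z + (1 + 2 * δ) * Z = (1 + 4 * δ) * Z := by ring
      rw [this]
      exact mul_le_mul_of_nonneg_right (by linarith) hZ0.le
    linarith

end Pool.Agent.Lib.SW
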